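import Mathlib

/-!
# Averages over the units modulo `m`, Ramanujan sums
-/

open Filter Topology MeasureTheory Finset

namespace Pool.Agent.Lib.MP_938ce2_ag_H7

/-- `e(x) = exp (2 π i x)` on `ℝ/ℤ`. -/
noncomputable def ee (x : UnitAddCircle) : ℂ := (AddCircle.toCircle x : ℂ)

lemma ee_add (x y : UnitAddCircle) : ee (x + y) = ee x * ee y := by
  simp [ee, AddCircle.toCircle_add]

@[simp] lemma ee_zero : ee 0 = 1 := by simp [ee]

@[simp] lemma norm_ee (x : UnitAddCircle) : ‖ee x‖ = 1 := by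
  unfold ee; exact Circle.norm_coe _

lemma ee_ne_zero (x : UnitAddCircle) : ee x ≠ 0 := by
  intro h
  have := norm_ee x
  rw [h] at this
  simp at this

lemma ee_nsmul (n : ℕ) (x : UnitAddCircle) : ee (n • x) = ee x ^ n := by
  induction n with
  | zero => simp
  | succ n ih => rw [succ_nsmul, ee_add, ih, pow_succ]

lemma ee_neg_mul (x : UnitAddCircle) : ee (-x) * ee x = 1 := by
  rw [← ee_add]; simp

lemma ee_injective : Function.Injective ee := by
  intro x y h
  have h1 : AddCircle.toCircle x = AddCircle.toCircle y := Subtype.coe_injective h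
  exact AddCircle.injective_toCircle one_ne_zero h1

lemma ee_eq_one_iff {x : UnitAddCircle} : ee x = 1 ↔ x = 0 := by
  constructor
  · intro h
    exact ee_injective (by simpa using h)
  · rintro rfl; simp

lemma fourier_eq_ee (k : ℤ) (x : UnitAddCircle) : (fourier k x : ℂ) = ee (k • x) := by
  simp [ee, fourier_apply]

/-- the residues prime to `m` -/
def cop (m : ℕ) : Finset ℕ := (Finset.range m).filter (fun t => m.Coprime t)

lemma card_cop (m : ℕ) : (cop m).card = m.totient := rfl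

/-- average of `f` over the residues prime to `m` -/
noncomputable def avg (m : ℕ) (f : ℕ → ℂ) : ℂ := (∑ t ∈ cop m, f t) / (m.totient : ℂ)

lemma avg_congr {m : ℕ} {f g : ℕ → ℂ} (h : ∀ t, m.Coprime t → f t = g t) : avg m f = avg m g := by
  unfold avg
  congr 1
  apply Finset.sum_congr rfl
  intro t ht
  exact h t (Finset.mem_filter.mp ht).2

lemma avg_add (m : ℕ) (f g : ℕ → ℂ) : avg m (fun t => f t + g t) = avg m f + avg m g := by
  simp [avg, Finset.sum_add_distrib, add_div]

lemma avg_sub (m : ℕ) (f g : ℕ → ℂ) : avg m (fun t => f t - g t) = avg m f - avg m g := by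
  simp [avg, Finset.sum_sub_distrib, sub_div]

lemma avg_mul_left (m : ℕ) (c : ℂ) (f : ℕ → ℂ) : avg m (fun t => c * f t) = c * avg m f := by
  simp [avg, ← Finset.mul_sum, mul_div_assoc]

lemma avg_mul_right (m : ℕ) (c : ℂ) (f : ℕ → ℂ) : avg m (fun t => f t * c) = avg m f * c := by
  simp_rw [mul_comm _ c]; rw [avg_mul_left]

lemma avg_sum {ι : Type*} (s : Finset ι) (m : ℕ) (f : ι → ℕ → ℂ) :
    avg m (fun t => ∑ i ∈ s, f i t) = ∑ i ∈ s, avg m (f i) := by
  classical
  unfold avg
  rw [Finset.sum_comm, Finset.sum_div]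

lemma norm_avg_le {m : ℕ} {f : ℕ → ℂ} {C : ℝ} (hC : 0 ≤ C) (h : ∀ t, m.Coprime t → ‖f t‖ ≤ C) :
    ‖avg m f‖ ≤ C := by
  unfold avg
  rcases Nat.eq_zero_or_pos m with rfl | hm
  · simp [cop, hC]
  have hφ : 0 < (m.totient : ℝ) := by exact_mod_cast Nat.totient_pos.mpr hm
  rw [norm_div, Complex.norm_natCast, div_le_iff₀ hφ]
  calc ‖∑ t ∈ cop m, f t‖ ≤ ∑ t ∈ cop m, ‖f t‖ := norm_sum_le _ _
    _ ≤ ∑ t ∈ cop m, C := Finset.sum_le_sum fun t ht => h t (Finset.mem_filter.mp ht).2
    _ = C * m.totient := by rw [Finset.sum_const, card_cop, nsmul_eq_mul, mul_comm]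

lemma norm_avg_le_avg {m : ℕ} {f : ℕ → ℂ} {g : ℕ → ℝ} (h : ∀ t, m.Coprime t → ‖f t‖ ≤ g t) :
    ‖avg m f‖ ≤ ‖avg m (fun t => (g t : ℂ))‖ := by
  unfold avg
  rw [norm_div, norm_div, ← Complex.ofReal_sum, Complex.norm_real, Real.norm_eq_abs]
  gcongr
  calc ‖∑ t ∈ cop m, f t‖ ≤ ∑ t ∈ cop m, ‖f t‖ := norm_sum_le _ _
    _ ≤ ∑ t ∈ cop m, g t := Finset.sum_le_sum fun t ht => h t (Finset.mem_filter.mp ht).2
    _ ≤ _ := le_abs_self _

/-- sums over `cop m` are sums over the unit group -/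
lemma sum_cop_eq (m : ℕ) [NeZero m] (f : ℕ → ℂ) :
    ∑ t ∈ cop m, f t = ∑ u : (ZMod m)ˣ, f (u : ZMod m).val := by
  symm
  refine Finset.sum_bij (fun u _ => (u : ZMod m).val) ?_ ?_ ?_ ?_
  · intro u _
    simp only [cop, Finset.mem_filter, Finset.mem_range]
    exact ⟨ZMod.val_lt _, (ZMod.val_coe_unit_coprime u).symm⟩
  · intro u _ v _ h
    exact Units.ext (ZMod.val_injective m h)
  · intro t ht
    simp only [cop, Finset.mem_filter, Finset.mem_range] at ht
    refine ⟨ZMod.unitOfCoprime t ht.2.symm, Finset.mem_univ _, ?_⟩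
    rw [ZMod.coe_unitOfCoprime, ZMod.val_natCast, Nat.mod_eq_of_lt ht.1]
  · intro u _; rfl

/-- the average over the units of `ℤ/m` of a function that is periodic modulo `r ∣ m` is its
average over the units of `ℤ/r`. -/
lemma avg_dvd {r m : ℕ} (hm : 0 < m) (hrm : r ∣ m) {f : ℕ → ℂ} (hf : ∀ t, f t = f (t % r)) :
    avg m f = avg r f := by
  have hr : 0 < r := Nat.pos_of_dvd_of_pos hrm hm
  have : NeZero m := ⟨hm.ne'⟩
  have : NeZero r := ⟨hr.ne'⟩
  have hmt : (m.totient : ℂ) ≠ 0 := by exact_mod_cast (Nat.totient_pos.mpr hm).ne'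
  have hrt : (r.totient : ℂ) ≠ 0 := by exact_mod_cast (Nat.totient_pos.mpr hr).ne'
  unfold avg
  rw [sum_cop_eq, sum_cop_eq]
  set φ : (ZMod m)ˣ →* (ZMod r)ˣ := ZMod.unitsMap hrm with hφ
  have hsurj : Function.Surjective φ := ZMod.unitsMap_surjective hrm
  have hval : ∀ u : (ZMod m)ˣ, f (u : ZMod m).val = f (φ u : ZMod r).val := by
    intro u
    rw [hφ, ZMod.unitsMap_val, hf, ZMod.cast_eq_val, ZMod.val_natCast]
  simp_rw [hval]
  -- fibres
  classical
  have hfib : ∀ v : (ZMod r)ˣ, ((Finset.univ.filter (fun u => φ u = v)).card : ℂ) =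
      (Finset.univ.filter (fun u => φ u = 1)).card := by
    intro v
    exact_mod_cast MonoidHom.card_fiber_eq_of_mem_range φ (hsurj v) (hsurj 1)
  set c : ℂ := ((Finset.univ.filter (fun u => φ u = 1)).card : ℂ) with hc
  have hsum : ∀ F : (ZMod r)ˣ → ℂ, ∑ u : (ZMod m)ˣ, F (φ u) = c * ∑ v : (ZMod r)ˣ, F v := by
    intro F
    rw [← Finset.sum_fiberwise (s := Finset.univ) (g := fun u => φ u) (f := fun u => F (φ u)),
      Finset.mul_sum]
    apply Finset.sum_congr rfl
    intro v _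
    rw [Finset.sum_congr rfl (g := fun _ => F v)]
    · rw [Finset.sum_const, nsmul_eq_mul, hfib v]
    · intro u hu
      rw [(Finset.mem_filter.mp hu).2]
  have h1 := hsum (fun _ => 1)
  simp only [Finset.sum_const, Finset.card_univ, ZMod.card_units_eq_totient, nsmul_eq_mul,
    mul_one] at h1
  rw [hsum (fun v => f (v : ZMod r).val), h1]
  have hc0 : c ≠ 0 := by
    intro h0
    rw [h0, zero_mul] at h1
    exact hmt h1
  field_simp

/-! ### Ramanujan sums -/

lemma sum_primitiveRoots (n : ℕ) (hn : 0 < n) :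
    ∑ ζ ∈ primitiveRoots n ℂ, ζ = (ArithmeticFunction.moebius n : ℂ) := by
  classical
  induction n using Nat.strong_induction_on with
  | _ n ih =>
    -- sum over all divisors
    have key : ∑ d ∈ n.divisors, ∑ ζ ∈ primitiveRoots d ℂ, ζ = if n = 1 then 1 else 0 := by
      rw [← Finset.sum_biUnion, ← IsPrimitiveRoot.nthRoots_one_eq_biUnion_primitiveRoots]
      · have hζ : IsPrimitiveRoot (Complex.exp (2 * Real.pi * Complex.I / n)) n :=
          Complex.isPrimitiveRoot_exp n hn.ne'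
        have h2 : ∑ ζ ∈ Polynomial.nthRootsFinset n (1:ℂ), ζ =
            ∑ i ∈ Finset.range n, (Complex.exp (2 * Real.pi * Complex.I / n)) ^ i := by
          symm
          refine Finset.sum_bij (fun i _ => (Complex.exp (2 * Real.pi * Complex.I / n)) ^ i)
            ?_ ?_ ?_ ?_
          · intro i _
            rw [Polynomial.mem_nthRootsFinset hn, ← pow_mul, mul_comm i n, pow_mul,
              hζ.pow_eq_one, one_pow]
          · intro i hi j hj h
            exact hζ.pow_inj (Finset.mem_range.mp hi) (Finset.mem_range.mp hj) h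
          · intro ξ hξ
            rw [Polynomial.mem_nthRootsFinset hn] at hξ
            have : NeZero n := ⟨hn.ne'⟩
            obtain ⟨i, hi, h⟩ := hζ.eq_pow_of_pow_eq_one hξ
            exact ⟨i, Finset.mem_range.mpr hi, h⟩
          · intro i _; rfl
        rw [h2]
        split_ifs with h1
        · subst h1; simp
        · exact hζ.geom_sum_eq_zero (by omega)
      · intro a _ b _ hab
        exact IsPrimitiveRoot.disjoint hab
    have key2 : ∑ d ∈ n.divisors, (ArithmeticFunction.moebius d : ℂ) = if n = 1 then 1 else 0 := by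
      have h := congrArg (fun f : ArithmeticFunction ℤ => f n)
        ArithmeticFunction.coe_zeta_mul_moebius
      simp only [ArithmeticFunction.coe_zeta_mul_apply, ArithmeticFunction.one_apply] at h
      exact_mod_cast h
    have h3 : n ∈ n.divisors := by simp [hn.ne']
    rw [← Finset.add_sum_erase _ _ h3] at key key2
    have h4 : ∑ d ∈ n.divisors.erase n, ∑ ζ ∈ primitiveRoots d ℂ, ζ =
        ∑ d ∈ n.divisors.erase n, (ArithmeticFunction.moebius d : ℂ) := by
      apply Finset.sum_congr rfl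
      intro d hd
      rw [Finset.mem_erase, Nat.mem_divisors] at hd
      exact ih d (lt_of_le_of_ne (Nat.le_of_dvd hn hd.2.1) hd.1)
        (Nat.pos_of_dvd_of_pos hd.2.1 hn)
    rw [h4] at key
    exact add_right_cancel (key.trans key2.symm)

lemma ee_isPrimitiveRoot {y : UnitAddCircle} : IsPrimitiveRoot (ee y) (addOrderOf y) := by
  rw [IsPrimitiveRoot.iff_def]
  constructor
  · rw [← ee_nsmul, addOrderOf_nsmul_eq_zero, ee_zero]
  · intro l hl
    rw [← ee_nsmul, ee_eq_one_iff] at hl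
    exact addOrderOf_dvd_of_nsmul_eq_zero hl

lemma sum_cop_ee {y : UnitAddCircle} (hy : 0 < addOrderOf y) :
    ∑ t ∈ cop (addOrderOf y), ee (t • y) = (ArithmeticFunction.moebius (addOrderOf y) : ℂ) := by
  classical
  rw [← sum_primitiveRoots _ hy]
  have hp := ee_isPrimitiveRoot (y := y)
  refine Finset.sum_bij (fun t _ => ee (t • y)) ?_ ?_ ?_ ?_
  · intro t ht
    simp only [cop, Finset.mem_filter, Finset.mem_range] at ht
    rw [mem_primitiveRoots hy, ee_nsmul]
    exact hp.pow_of_coprime t ht.2.symm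
  · intro s hs t ht h
    simp only [cop, Finset.mem_filter, Finset.mem_range] at hs ht
    rw [ee_nsmul, ee_nsmul] at h
    exact hp.pow_inj hs.1 ht.1 h
  · intro ξ hξ
    rw [mem_primitiveRoots hy] at hξ
    have : NeZero (addOrderOf y) := ⟨hy.ne'⟩
    obtain ⟨i, hi, hc, h⟩ := hp.isPrimitiveRoot_iff.mp hξ
    refine ⟨i, ?_, ?_⟩
    · simp only [cop, Finset.mem_filter, Finset.mem_range]
      exact ⟨hi, hc.symm⟩
    · rw [ee_nsmul, h]
  · intro t _; rfl

lemma nsmul_mod_addOrderOf' (y : UnitAddCircle) (t : ℕ) :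
    (t % addOrderOf y) • y = t • y := mod_addOrderOf_nsmul y t

lemma avg_ee_eq {m : ℕ} (hm : 0 < m) {y : UnitAddCircle} (hy : m • y = 0) :
    avg m (fun t => ee (t • y)) =
      (ArithmeticFunction.moebius (addOrderOf y) : ℂ) / ((addOrderOf y).totient : ℂ) := by
  have hd : addOrderOf y ∣ m := addOrderOf_dvd_of_nsmul_eq_zero hy
  rw [avg_dvd hm hd]
  · unfold avg
    rw [sum_cop_ee (Nat.pos_of_dvd_of_pos hd hm)]
  · intro t
    simp only [mod_addOrderOf_nsmul]

lemma norm_avg_ee_le {m : ℕ} (hm : 0 < m) {y : UnitAddCircle} (hy : m • y = 0) :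
    ‖avg m (fun t => ee (t • y))‖ ≤ 1 / ((addOrderOf y).totient : ℝ) := by
  rw [avg_ee_eq hm hy, norm_div, Complex.norm_natCast, Complex.norm_intCast]
  gcongr
  exact_mod_cast ArithmeticFunction.abs_moebius_le_one

/-- `φ r ≤ B` implies `r ∣ (2 B)!` -/
lemma dvd_factorial_of_totient_le {r B : ℕ} (hr : 0 < r) (h : r.totient ≤ B) :
    r ∣ (2 * B).factorial := by
  rw [Nat.dvd_iff_prime_pow_dvd_dvd]
  intro p k hp hpk
  rcases Nat.eq_zero_or_pos k with rfl | hk
  · simp
  apply Nat.dvd_factorial (pow_pos hp.pos _)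
  have h1 : (p ^ k).totient ≤ B :=
    (Nat.le_of_dvd (Nat.totient_pos.mpr hr) (Nat.totient_dvd_of_dvd hpk)).trans h
  rw [Nat.totient_prime_pow hp hk] at h1
  have h2 : p ^ k = p ^ (k - 1) * p := by
    rw [← pow_succ, Nat.sub_add_cancel hk]
  have h3 : p ≤ 2 * (p - 1) := by have := hp.two_le; omega
  calc p ^ k = p ^ (k - 1) * p := h2
    _ ≤ p ^ (k - 1) * (2 * (p - 1)) := Nat.mul_le_mul_left _ h3
    _ = 2 * (p ^ (k - 1) * (p - 1)) := by ring
    _ ≤ 2 * B := Nat.mul_le_mul_left _ h1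

end Pool.Agent.Lib.MP_938ce2_ag_H7
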