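import Pool.Agent.Lib.MP_938ce2_ag_H7.Core

/-!
# Standard relations
-/

open Finset

namespace Pool.Agent.Lib.MP_938ce2_ag_H7

/-- the formal sum `[a₁] + ... + [a_N]` -/
noncomputable def fs {ι : Type*} [Fintype ι] (a : ι → UnitAddCircle) : UnitAddCircle →₀ ℤ :=
  ∑ i, Finsupp.single (a i) 1

/-- the standard relations -/
def stdGen : Set (UnitAddCircle →₀ ℤ) :=
  {w | (∃ x : UnitAddCircle, IsOfFinAddOrder x ∧ x ≠ 0 ∧
        w = Finsupp.single x 1 + Finsupp.single (-x) 1) ∨
    (∃ (p : ℕ) (x : UnitAddCircle), p.Prime ∧ p ≠ 2 ∧ IsOfFinAddOrder x ∧ p • x ≠ 0 ∧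
        w = ∑ j ∈ range p, Finsupp.single (x + j • pt p) 1 + Finsupp.single (-(p • x)) 1) ∨
    (∃ x : UnitAddCircle, IsOfFinAddOrder x ∧ 2 • x ≠ 0 ∧
        w = Finsupp.single x 1 + Finsupp.single (x + pt 2) 1 + Finsupp.single (-(2 • x)) 1 +
          Finsupp.single (pt 2) 1)}

/-- the group generated by the standard relations -/
noncomputable def Std : AddSubgroup (UnitAddCircle →₀ ℤ) := AddSubgroup.closure stdGen

/-- the same with `[1/2]` added -/
noncomputable def Std' : AddSubgroup (UnitAddCircle →₀ ℤ) :=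
  AddSubgroup.closure (insert (Finsupp.single (pt 2) 1) stdGen)

lemma Std_le_Std' : Std ≤ Std' := AddSubgroup.closure_mono (Set.subset_insert _ _)

lemma half_mem : Finsupp.single (pt 2) 1 ∈ Std' :=
  AddSubgroup.subset_closure (Set.mem_insert _ _)

lemma refl_mem {x : UnitAddCircle} (hx : IsOfFinAddOrder x) (h0 : x ≠ 0) :
    Finsupp.single x 1 + Finsupp.single (-x) 1 ∈ Std' :=
  AddSubgroup.subset_closure (Set.mem_insert_of_mem _ (Or.inl ⟨x, hx, h0, rfl⟩))

lemma pt_add_self : pt 2 + pt 2 = 0 := by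
  have := nsmul_pt 2 (by norm_num)
  rwa [two_nsmul] at this

lemma isOfFinAddOrder_pt {s : ℕ} (hs : 0 < s) : IsOfFinAddOrder (pt s) := by
  rw [← addOrderOf_pos_iff, addOrderOf_pt hs]; exact hs

lemma pt_ne_zero {s : ℕ} (hs : 1 < s) : pt s ≠ 0 := by
  intro h
  have := addOrderOf_pt (s := s) (by omega)
  rw [h, addOrderOf_zero] at this
  omega

lemma pt_one : pt 1 = 0 := by
  have := nsmul_pt 1 one_pos
  simpa using this

lemma distp_mem {p : ℕ} (hp : p.Prime) {x : UnitAddCircle} (hx : IsOfFinAddOrder x)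
    (h0 : p • x ≠ 0) :
    ∑ j ∈ range p, Finsupp.single (x + j • pt p) 1 - Finsupp.single (p • x) 1 ∈ Std' := by
  have hr : Finsupp.single (p • x) (1:ℤ) + Finsupp.single (-(p • x)) 1 ∈ Std' :=
    refl_mem (hx.nsmul) h0
  by_cases h2 : p = 2
  · subst h2
    have h1 : Finsupp.single x (1:ℤ) + Finsupp.single (x + pt 2) 1 +
        Finsupp.single (-(2 • x)) 1 + Finsupp.single (pt 2) 1 ∈ Std' :=
      AddSubgroup.subset_closure (Set.mem_insert_of_mem _ (Or.inr (Or.inr ⟨x, hx, h0, rfl⟩)))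
    have h3 := Std'.sub_mem (Std'.sub_mem h1 hr) half_mem
    convert h3 using 1
    rw [Finset.sum_range_succ, Finset.sum_range_one]
    simp only [zero_smul, add_zero, one_smul]
    abel
  · have h1 : ∑ j ∈ range p, Finsupp.single (x + j • pt p) (1:ℤ) +
        Finsupp.single (-(p • x)) 1 ∈ Std' :=
      AddSubgroup.subset_closure (Set.mem_insert_of_mem _
        (Or.inr (Or.inl ⟨p, x, hp, h2, hx, h0, rfl⟩)))
    have h3 := Std'.sub_mem h1 hr
    convert h3 using 1
    abel

lemma nsmul_pt_mul {p n : ℕ} (hp : 0 < p) (hn : 0 < n) : p • pt (p * n) = pt n := by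
  unfold pt
  rw [← AddCircle.coe_nsmul]
  congr 1
  have hp' : (p : ℝ) ≠ 0 := by exact_mod_cast hp.ne'
  have hn' : (n : ℝ) ≠ 0 := by exact_mod_cast hn.ne'
  rw [nsmul_eq_mul]
  push_cast
  field_simp

/-- all distribution relations -/
lemma dist_mem (n : ℕ) (hn : 0 < n) : ∀ {x : UnitAddCircle}, IsOfFinAddOrder x → n • x ≠ 0 →
    ∑ j ∈ range n, Finsupp.single (x + j • pt n) 1 - Finsupp.single (n • x) 1 ∈ Std' := by
  induction n using Nat.strong_induction_on with
  | _ n ih =>
    intro x hx h0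
    by_cases h1 : n = 1
    · subst h1
      simp [pt_one]
    obtain ⟨p, hp, n', rfl⟩ := Nat.exists_prime_and_dvd h1
    have hn' : 0 < n' := Nat.pos_of_ne_zero (fun h => by simp [h] at hn)
    have hlt : n' < p * n' := by
      have := hp.two_le
      nlinarith
    -- reindex
    have hre : ∑ j ∈ range (p * n'), Finsupp.single (x + j • pt (p * n')) (1:ℤ) =
        ∑ i ∈ range p, ∑ l ∈ range n', Finsupp.single ((x + i • pt (p * n')) + l • pt n') (1:ℤ) := by
      rw [mul_comm p n', Finset.sum_range, ← Equiv.sum_comp finProdFinEquiv,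
        Fintype.sum_prod_type_right, Finset.sum_range]
      apply Finset.sum_congr rfl
      intro i _
      rw [Finset.sum_range]
      apply Finset.sum_congr rfl
      intro l _
      congr 1
      simp only [finProdFinEquiv_apply_val]
      rw [add_smul, mul_comm p (l:ℕ), mul_smul, mul_comm n' p, nsmul_pt_mul hp.pos hn', add_assoc]
    have hpi : ∀ i : ℕ, n' • (x + i • pt (p * n')) = n' • x + i • pt p := by
      intro i
      rw [smul_add, smul_comm, mul_comm p n', nsmul_pt_mul hn' hp.pos]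
    have hin : ∀ i ∈ range p, ∑ l ∈ range n',
        Finsupp.single ((x + i • pt (p * n')) + l • pt n') (1:ℤ) -
          Finsupp.single (n' • x + i • pt p) 1 ∈ Std' := by
      intro i _
      have h2 := ih n' hlt hn' (x := x + i • pt (p * n'))
        (hx.add ((isOfFinAddOrder_pt hn).nsmul)) (by
          intro h
          apply h0
          have h3 : p • (n' • (x + i • pt (p * n'))) = 0 := by rw [h, smul_zero]
          rw [hpi, smul_add, smul_comm p i, nsmul_pt p hp.pos, smul_zero, add_zero,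
            ← mul_smul] at h3
          exact h3)
      rwa [hpi] at h2
    have hout := distp_mem hp (x := n' • x) hx.nsmul (by rwa [← mul_smul])
    have hsum := Std'.add_mem (Std'.sum_mem hin) hout
    rw [hre]
    convert hsum using 1
    rw [Finset.sum_sub_distrib, ← mul_smul]
    abel

/-- Fourier functional -/
noncomputable def four (k : ℤ) : (UnitAddCircle →₀ ℤ) →+ ℂ :=
  Finsupp.liftAddHom fun η => (AddMonoidHom.mulRight (ee (k • η))).comp (Int.castAddHom ℂ)

lemma four_single (k : ℤ) (η : UnitAddCircle) (c : ℤ) :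
    four k (Finsupp.single η c) = (c : ℂ) * ee (k • η) := by
  simp [four]

lemma four_apply (k : ℤ) (μ : UnitAddCircle →₀ ℤ) :
    four k μ = ∑ η ∈ μ.support, (μ η : ℂ) * ee (k • η) := by
  conv_lhs => rw [← μ.sum_single]
  rw [Finsupp.sum, map_sum]
  simp_rw [four_single]

/-- injectivity of the Fourier transform without the zeroth coefficient -/
lemma eq_zero_of_four {μ : UnitAddCircle →₀ ℤ} (hfin : ∀ η ∈ μ.support, IsOfFinAddOrder η)
    (h : ∀ k : ℤ, k ≠ 0 → four k μ = 0) : μ = 0 := by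
  classical
  by_contra hne
  obtain ⟨η0, hη0⟩ := Finsupp.support_nonempty_iff.mpr hne
  set D : ℕ := ∏ η ∈ μ.support, addOrderOf η with hD
  have hDpos : 0 < D := Finset.prod_pos fun η hη => addOrderOf_pos_iff.mpr (hfin η hη)
  have hDη : ∀ η ∈ μ.support, D • η = 0 := by
    intro η hη
    obtain ⟨c, hc⟩ := Finset.dvd_prod_of_mem addOrderOf hη
    rw [hD, hc, mul_comm, mul_smul, addOrderOf_nsmul_eq_zero, smul_zero]
  have h1 : ∑ k ∈ range D, ee (-((k + 1) • η0)) * four ((k + 1 : ℕ) : ℤ) μ = 0 := by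
    apply Finset.sum_eq_zero
    intro k _
    rw [h _ (by exact_mod_cast Nat.succ_ne_zero k), mul_zero]
  simp_rw [four_apply, Finset.mul_sum] at h1
  rw [Finset.sum_comm] at h1
  have h2 : ∀ η ∈ μ.support, ∑ k ∈ range D, ee (-((k + 1) • η0)) *
      ((μ η : ℂ) * ee (((k + 1 : ℕ) : ℤ) • η)) = if η = η0 then (D : ℂ) * μ η else 0 := by
    intro η hη
    have h3 : ∀ k : ℕ, ee (-((k + 1) • η0)) * ((μ η : ℂ) * ee (((k + 1 : ℕ) : ℤ) • η)) =
        (μ η : ℂ) * (ee (η - η0) * ee (η - η0) ^ k) := by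
      intro k
      rw [← pow_succ', ← ee_nsmul, mul_left_comm, ← ee_add]
      congr 2
      rw [natCast_zsmul, smul_sub]
      abel
    simp_rw [h3]
    rw [← Finset.mul_sum, ← Finset.mul_sum]
    split_ifs with heq
    · subst heq
      simp
      ring
    · have hz : ee (η - η0) ≠ 1 := fun h' => heq (sub_eq_zero.mp (ee_eq_one_iff.mp h'))
      rw [geom_sum_eq hz, ← ee_nsmul, smul_sub, hDη η hη, hDη η0 hη0]
      simp
  rw [Finset.sum_congr rfl h2, Finset.sum_ite_eq' _ _ _, if_pos hη0, mul_eq_zero] at h1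
  rcases h1 with h1 | h1
  · exact hDpos.ne' (by exact_mod_cast h1)
  · exact (Finsupp.mem_support_iff.mp hη0) (by exact_mod_cast h1)

/-- sum of `e(k(δ + j/n))` over `j` -/
lemma sum_ee_pt {n : ℕ} (hn : 0 < n) (k : ℤ) (δ : UnitAddCircle) :
    ∑ j ∈ range n, ee (k • (δ + j • pt n)) = if (n : ℤ) ∣ k then (n : ℂ) * ee (k • δ) else 0 := by
  have h1 : ∀ j : ℕ, ee (k • (δ + j • pt n)) = ee (k • δ) * ee (k • pt n) ^ j := by
    intro j
    rw [smul_add, ee_add, ← ee_nsmul, smul_comm k j]
  simp_rw [h1]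
  rw [← Finset.mul_sum]
  have h2 : k • pt n = 0 ↔ (n : ℤ) ∣ k := by
    rw [← addOrderOf_dvd_iff_zsmul_eq_zero, addOrderOf_pt hn]
  split_ifs with h
  · rw [h2.mpr h]; simp [mul_comm]
  · have hz : ee (k • pt n) ≠ 1 := fun h' => h (h2.mp (ee_eq_one_iff.mp h'))
    rw [geom_sum_eq hz, ← ee_nsmul, smul_comm, nsmul_pt n hn]
    simp

/-- **Formal consequence of the Fourier identities of a class.** -/
theorem class_mem_Std' {κ : Type*} (S : Finset κ) (n : κ → ℤ) (hn : ∀ i ∈ S, n i ≠ 0)
    (θ a : κ → UnitAddCircle) (z : UnitAddCircle) (hz : IsOfFinAddOrder z)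
    (hθ : ∀ i ∈ S, IsOfFinAddOrder (θ i))
    (ha : ∀ i ∈ S, a i = n i • z + θ i) (ha0 : ∀ i ∈ S, a i ≠ 0)
    (q : κ → ℤ → ℤ) (hq : ∀ i ∈ S, ∀ k, n i ∣ k → n i * q i k = k)
    (h : ∀ k : ℤ, k ≠ 0 → ∑ i ∈ S with n i ∣ k, (n i : ℂ) * ee (q i k • θ i) = 0) :
    ∑ i ∈ S, Finsupp.single (a i) 1 ∈ Std' := by
  classical
  -- division
  have hδ : ∀ i ∈ S, ∃ δ : UnitAddCircle, n i • δ = θ i ∧ IsOfFinAddOrder δ := by
    intro i hi
    refine ⟨((fr (θ i) / n i : ℝ) : UnitAddCircle), ?_, ?_⟩
    · rw [← AddCircle.coe_zsmul, zsmul_eq_mul, mul_div_cancel₀, coe_fr]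
      exact_mod_cast hn i hi
    · have h1 : n i • ((fr (θ i) / n i : ℝ) : UnitAddCircle) = θ i := by
        rw [← AddCircle.coe_zsmul, zsmul_eq_mul, mul_div_cancel₀, coe_fr]
        exact_mod_cast hn i hi
      obtain ⟨r, hr, hr2⟩ := isOfFinAddOrder_iff_nsmul_eq_zero.mp (hθ i hi)
      rw [isOfFinAddOrder_iff_zsmul_eq_zero]
      refine ⟨(r : ℤ) * n i, mul_ne_zero (by exact_mod_cast hr.ne') (hn i hi), ?_⟩
      rw [mul_smul, h1, natCast_zsmul, hr2]
  choose! δ hδ1 hδ2 using hδ
  set η : κ → ℕ → UnitAddCircle := fun i j => δ i + j • pt (n i).natAbs with hη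
  -- each point
  have hone : ∀ i ∈ S, Finsupp.single (a i) (1:ℤ) -
      (n i).sign • ∑ j ∈ range (n i).natAbs, Finsupp.single (z + η i j) (1:ℤ) ∈ Std' := by
    intro i hi
    have hpos : 0 < (n i).natAbs := Int.natAbs_pos.mpr (hn i hi)
    have hzf : IsOfFinAddOrder (z + δ i) := hz.add (hδ2 i hi)
    have hai : a i = n i • (z + δ i) := by rw [ha i hi, smul_add, hδ1 i hi]
    have hsum : ∑ j ∈ range (n i).natAbs, Finsupp.single (z + η i j) (1:ℤ) =
        ∑ j ∈ range (n i).natAbs, Finsupp.single ((z + δ i) + j • pt (n i).natAbs) (1:ℤ) := by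
      apply Finset.sum_congr rfl
      intro j _
      rw [hη, add_assoc]
    rw [hsum]
    rcases lt_or_gt_of_ne (hn i hi) with hneg | hpos'
    · have e1 : (n i).natAbs • (z + δ i) = - a i := by
        rw [hai, ← natCast_zsmul, Int.ofNat_natAbs_of_nonpos hneg.le, neg_smul]
      have h1 := dist_mem _ hpos hzf (by rw [e1, neg_ne_zero]; exact ha0 i hi)
      rw [e1] at h1
      have hfa : IsOfFinAddOrder (a i) := by rw [hai]; exact hzf.zsmul
      have h2 := refl_mem hfa (ha0 i hi)
      have h3 := Std'.add_mem h2 h1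
      rw [Int.sign_eq_neg_one_of_neg hneg, neg_one_smul]
      convert h3 using 1
      abel
    · have e1 : (n i).natAbs • (z + δ i) = a i := by
        rw [hai, ← natCast_zsmul, Int.natAbs_of_nonneg hpos'.le]
      have h1 := dist_mem _ hpos hzf (by rw [e1]; exact ha0 i hi)
      rw [e1] at h1
      rw [Int.sign_eq_one_of_pos hpos', one_smul]
      have h3 := Std'.neg_mem h1
      convert h3 using 1
      abel
  -- the formal sum vanishes
  set μ : UnitAddCircle →₀ ℤ := ∑ i ∈ S, (n i).sign • ∑ j ∈ range (n i).natAbs,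
    Finsupp.single (η i j) (1:ℤ) with hμ
  have hμ0 : μ = 0 := by
    apply eq_zero_of_four
    · intro x hx
      have h1 := Finsupp.support_finsetSum hx
      rw [Finset.mem_biUnion] at h1
      obtain ⟨i, hi, h2⟩ := h1
      have h3 := Finsupp.support_smul h2
      have h4 := Finsupp.support_finsetSum h3
      rw [Finset.mem_biUnion] at h4
      obtain ⟨j, _, h5⟩ := h4
      have h6 := Finsupp.support_single_subset h5
      rw [Finset.mem_singleton] at h6
      rw [h6, hη]
      exact (hδ2 i hi).add (isOfFinAddOrder_pt (Int.natAbs_pos.mpr (hn i hi))).nsmul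
    · intro k hk
      rw [hμ, map_sum]
      have h1 : ∀ i ∈ S, four k ((n i).sign • ∑ j ∈ range (n i).natAbs,
          Finsupp.single (η i j) (1:ℤ)) =
          if n i ∣ k then (n i : ℂ) * ee (q i k • θ i) else 0 := by
        intro i hi
        have hpos : 0 < (n i).natAbs := Int.natAbs_pos.mpr (hn i hi)
        rw [map_zsmul, map_sum]
        simp_rw [four_single, hη]
        simp only [Int.cast_one, one_mul]
        rw [sum_ee_pt hpos]
        simp only [Int.natAbs_dvd]
        split_ifs with hd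
        · have e1 : k • δ i = q i k • θ i := by
            rw [← hδ1 i hi, ← mul_smul, mul_comm, hq i hi k hd]
          rw [e1, zsmul_eq_mul, ← mul_assoc]
          congr 1
          have h7 := Int.sign_mul_natAbs (n i)
          have h8 : (((n i).sign * ((n i).natAbs : ℤ) : ℤ) : ℂ) = (n i : ℂ) := by rw [h7]
          rw [Int.cast_mul, Int.cast_natCast] at h8
          exact h8
        · simp
      rw [Finset.sum_congr rfl h1, ← Finset.sum_filter]
      exact h k hk
  have htot := Std'.sum_mem hone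
  rw [Finset.sum_sub_distrib] at htot
  have hmap : ∑ i ∈ S, (n i).sign • ∑ j ∈ range (n i).natAbs, Finsupp.single (z + η i j) (1:ℤ) =
      Finsupp.mapDomain (fun x => z + x) μ := by
    rw [hμ, Finsupp.mapDomain_finsetSum]
    apply Finset.sum_congr rfl
    intro i _
    rw [Finsupp.mapDomain_smul, Finsupp.mapDomain_finsetSum]
    congr 1
    apply Finset.sum_congr rfl
    intro j _
    rw [Finsupp.mapDomain_single]
  rw [hmap, hμ0, Finsupp.mapDomain_zero, sub_zero] at htot
  exact htot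

end Pool.Agent.Lib.MP_938ce2_ag_H7
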