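import Pool.Agent.Lib.MP_938ce2_ag_H7.Ident
import Pool.Agent.Lib.MP_938ce2_ag_H7.Std

/-!
# Direction classes and the core theorem
-/

open Filter Topology Finset

namespace Pool.Agent.Lib.MP_938ce2_ag_H7

/-- pairwise dependent vectors modulo a saturated subgroup are multiples of a common vector -/
lemma exists_common {M : Type*} [AddCommGroup M] (L : AddSubgroup M)
    (hsat : ∀ (k : ℤ) (v : M), k ≠ 0 → k • v ∈ L → v ∈ L) {κ : Type*} [DecidableEq κ]
    (e : κ → M) (S : Finset κ) (hne : S.Nonempty) (he : ∀ i ∈ S, e i ∉ L)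
    (hdep : ∀ i ∈ S, ∀ j ∈ S, ∃ p q : ℤ, p ≠ 0 ∧ q ≠ 0 ∧ p • e i - q • e j ∈ L) :
    ∃ (v0 : M) (n : κ → ℤ), v0 ∉ L ∧ ∀ i ∈ S, n i ≠ 0 ∧ e i - n i • v0 ∈ L := by
  induction hne using Finset.Nonempty.cons_induction with
  | singleton i =>
    refine ⟨e i, fun _ => 1, he i (by simp), ?_⟩
    intro j hj
    rw [Finset.mem_singleton] at hj
    subst hj
    simp
  | cons i T hi hT ih =>
    obtain ⟨v0, n, hv0, hn⟩ := ih (fun j hj => he j (Finset.mem_cons_of_mem hj))
      (fun j hj k hk => hdep j (Finset.mem_cons_of_mem hj) k (Finset.mem_cons_of_mem hk))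
    obtain ⟨j, hj⟩ := hT
    obtain ⟨p, q, hp, hq, hpq⟩ := hdep i (Finset.mem_cons_self i T) j (Finset.mem_cons_of_mem hj)
    obtain ⟨hnj, hej⟩ := hn j hj
    have h1 : p • e i - (q * n j) • v0 ∈ L := by
      have h2 := L.add_mem hpq (L.zsmul_mem hej q)
      convert h2 using 1
      rw [smul_sub, mul_smul]; abel
    have hQ : q * n j ≠ 0 := mul_ne_zero hq hnj
    obtain ⟨P', Q', hP', hQ', hcop⟩ : ∃ P' Q' : ℤ, p = (Int.gcd p (q * n j) : ℤ) * P' ∧
        q * n j = (Int.gcd p (q * n j) : ℤ) * Q' ∧ IsCoprime P' Q' := by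
      have hg : (0:ℤ) < (Int.gcd p (q * n j) : ℤ) := by
        exact_mod_cast Int.gcd_pos_of_ne_zero_left _ hp
      refine ⟨p / (Int.gcd p (q * n j) : ℤ), (q * n j) / (Int.gcd p (q * n j) : ℤ),
        (Int.mul_ediv_cancel' (Int.gcd_dvd_left ..)).symm,
        (Int.mul_ediv_cancel' (Int.gcd_dvd_right ..)).symm, ?_⟩
      exact isCoprime_div_gcd_div_gcd hQ
    set g : ℤ := (Int.gcd p (q * n j) : ℤ) with hg
    have hg0 : g ≠ 0 := by
      rintro h0
      rw [h0, zero_mul] at hP'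
      exact hp hP'
    have hP0 : P' ≠ 0 := by rintro rfl; rw [mul_zero] at hP'; exact hp hP'
    have hQ0 : Q' ≠ 0 := by rintro rfl; rw [mul_zero] at hQ'; exact hQ hQ'
    have h3 : P' • e i - Q' • v0 ∈ L := by
      apply hsat g _ hg0
      rw [smul_sub, ← mul_smul, ← mul_smul, ← hP', ← hQ']
      exact h1
    obtain ⟨α, β, hαβ⟩ := hcop
    set v1 : M := α • v0 + β • e i with hv1
    -- v0 ≡ P' v1
    have h4 : v0 - P' • v1 ∈ L := by
      have h5 := L.neg_mem (L.zsmul_mem h3 β)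
      convert h5 using 1
      have h6 : v0 = (α * P' + β * Q') • v0 := by rw [hαβ, one_smul]
      conv_lhs => rw [h6]
      rw [hv1]
      module
    have h5 : e i - Q' • v1 ∈ L := by
      have h6 := L.zsmul_mem h3 α
      convert h6 using 1
      have h7 : e i = (α * P' + β * Q') • e i := by rw [hαβ, one_smul]
      conv_lhs => rw [h7]
      rw [hv1]
      module
    refine ⟨v1, fun k => if k = i then Q' else n k * P', ?_, ?_⟩
    · intro h
      apply hv0
      have := L.add_mem h4 (L.zsmul_mem h P')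
      simpa using this
    · intro k hk
      by_cases hki : k = i
      · subst hki
        simp only [if_true]
        exact ⟨hQ0, h5⟩
      · have hkT : k ∈ T := by
          rcases Finset.mem_cons.mp hk with h | h
          · exact absurd h hki
          · exact h
        simp only [if_neg hki]
        refine ⟨mul_ne_zero (hn k hkT).1 hP0, ?_⟩
        have h6 := L.add_mem (hn k hkT).2 (L.zsmul_mem h4 (n k))
        convert h6 using 1
        rw [smul_sub, mul_smul]; abel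

variable {ι : Type*} [Fintype ι] [DecidableEq ι]
variable {U : Ultrafilter ℕ} {a : ℕ → ι → UnitAddCircle}

/-- dependence of two coordinates -/
def Dep (U : Ultrafilter ℕ) (a : ℕ → ι → UnitAddCircle) (i j : ι) : Prop :=
  ∃ p q : ℤ, p ≠ 0 ∧ q ≠ 0 ∧ p • bv i - q • bv j ∈ Lam U a

lemma Dep.refl (i : ι) : Dep U a i i := ⟨1, 1, one_ne_zero, one_ne_zero, by
  rw [sub_self]; exact (Lam U a).zero_mem⟩

lemma Dep.symm {i j : ι} (h : Dep U a i j) : Dep U a j i := by
  obtain ⟨p, q, hp, hq, h⟩ := h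
  refine ⟨q, p, hq, hp, ?_⟩
  have := (Lam U a).neg_mem h
  rwa [neg_sub] at this

lemma Dep.trans {i j k : ι} (h : Dep U a i j) (h' : Dep U a j k) : Dep U a i k := by
  obtain ⟨p, q, hp, hq, h⟩ := h
  obtain ⟨r, t, hr, ht, h'⟩ := h'
  refine ⟨r * p, q * t, mul_ne_zero hr hp, mul_ne_zero hq ht, ?_⟩
  have := (Lam U a).add_mem ((Lam U a).zsmul_mem h r) ((Lam U a).zsmul_mem h' q)
  convert this using 1
  module

variable (hT : ∀ K, IsTate (a K)) {θ : (ι → ℤ) → UnitAddCircle} {s : ℕ}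
  (hs : 0 < s) (hsθ : ∀ v ∈ Lam U a, s • θ v = 0)
  (hconst : ∀ᶠ K in (U : Filter ℕ), ∀ v ∈ Lam U a, dot v (a K) = θ v)

include hT hs hsθ hconst in
/-- A direction class: the Fourier identities. -/
theorem class_identity (S : Finset ι) (hSne : S.Nonempty)
    (hS : ∀ i ∈ S, bv i ∉ Lam U a) (hdep : ∀ i ∈ S, ∀ j ∈ S, Dep U a i j)
    (hmax : ∀ i, ∀ j ∈ S, Dep U a i j → i ∈ S) :
    ∃ (v0 : ι → ℤ) (n : ι → ℤ), (∀ i ∈ S, n i ≠ 0 ∧ bv i - n i • v0 ∈ Lam U a) ∧
      ∀ k : ℤ, k ≠ 0 → ∑ i ∈ S with n i ∣ k, (n i : ℂ) * ee ((k / n i) • θ (bv i - n i • v0)) = 0 := by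
  classical
  obtain ⟨v0, n, hv0, hn⟩ := exists_common (Lam U a) (fun k v hk h => mem_Lam_of_smul_mem hk h)
    bv S hSne hS hdep
  refine ⟨v0, n, hn, ?_⟩
  intro k hk
  have hkv : k • v0 ∉ Lam U a := fun h => hv0 (mem_Lam_of_smul_mem hk h)
  set κ : ι → ℤ := fun i => if i ∈ S ∧ n i ∣ k then k / n i else 0 with hκ
  have hκmem : ∀ i ∈ S, n i ∣ k → κ i • bv i - k • v0 = (k / n i) • (bv i - n i • v0) := by
    intro i hi hd
    simp only [hκ]
    rw [if_pos ⟨hi, hd⟩, smul_sub, ← mul_smul, Int.ediv_mul_cancel hd]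
  obtain ⟨K0, hK0⟩ := hconst.exists
  obtain ⟨j0, hj0⟩ := hSne
  have hid := identity_of_notMem hT hs hsθ hconst hkv (κ := κ) (by
      intro i ⟨k', hk'⟩
      have hk'0 : k' ≠ 0 := by
        rintro rfl
        apply hkv
        have := (Lam U a).neg_mem hk'
        simpa using this
      have hdepi : Dep U a i j0 := by
        refine ⟨n j0 * k', k, mul_ne_zero (hn j0 hj0).1 hk'0, hk, ?_⟩
        have h1 := (Lam U a).sub_mem ((Lam U a).zsmul_mem hk' (n j0))
          ((Lam U a).zsmul_mem (hn j0 hj0).2 k)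
        convert h1 using 1
        module
      have hi : i ∈ S := hmax i j0 hj0 hdepi
      have h2 : (k' * n i - k) • v0 ∈ Lam U a := by
        have h1 := (Lam U a).sub_mem hk' ((Lam U a).zsmul_mem (hn i hi).2 k')
        convert h1 using 1
        module
      have h3 : k' * n i = k := by
        by_contra hne
        exact hv0 (mem_Lam_of_smul_mem (sub_ne_zero.mpr hne) h2)
      have hd : n i ∣ k := ⟨k', by rw [← h3, mul_comm]⟩
      rw [hκmem i hi hd]
      exact (Lam U a).zsmul_mem (hn i hi).2 _)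
    (S.filter (fun i => n i ∣ k)) (by
      intro i
      rw [Finset.mem_filter]
      constructor
      · rintro ⟨hi, hd⟩
        rw [hκmem i hi hd]
        exact (Lam U a).zsmul_mem (hn i hi).2 _
      · intro h
        by_contra hcon
        have h0 : κ i = 0 := by simp only [hκ]; rw [if_neg hcon]
        rw [h0, zero_smul, zero_sub] at h
        apply hkv
        have := (Lam U a).neg_mem h
        simpa using this)
  have h1 : ∑ i ∈ S with n i ∣ k, (n i : ℂ) * ee ((k / n i) • θ (bv i - n i • v0)) =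
      k * ∑ i ∈ S with n i ∣ k, (1 / (κ i : ℂ)) * ee (θ (κ i • bv i - k • v0)) := by
    rw [Finset.mul_sum]
    apply Finset.sum_congr rfl
    intro i hi
    rw [Finset.mem_filter] at hi
    obtain ⟨hi, hd⟩ := hi
    have hni : (n i : ℂ) ≠ 0 := by exact_mod_cast (hn i hi).1
    have e1 : θ (κ i • bv i - k • v0) = (k / n i) • θ (bv i - n i • v0) := by
      rw [hκmem i hi hd, ← hK0 _ ((Lam U a).zsmul_mem (hn i hi).2 _), ← hK0 _ (hn i hi).2,
        dot_smul]
    rw [e1, ← mul_assoc]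
    congr 1
    obtain ⟨c, hc⟩ := hd
    have e2 : κ i = c := by
      simp only [hκ]
      rw [if_pos ⟨hi, ⟨c, hc⟩⟩, hc, Int.mul_ediv_cancel_left _ (hn i hi).1]
    have hc0 : (c : ℂ) ≠ 0 := by
      intro h
      apply hk
      rw [hc]
      have : c = 0 := by exact_mod_cast h
      rw [this, mul_zero]
    rw [e2, hc]
    push_cast
    field_simp
  rw [h1, hid, mul_zero]

include hT hs hsθ hconst in
/-- every direction class has at least two elements -/
theorem class_two_le (S : Finset ι) (hSne : S.Nonempty)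
    (hS : ∀ i ∈ S, bv i ∉ Lam U a) (hdep : ∀ i ∈ S, ∀ j ∈ S, Dep U a i j)
    (hmax : ∀ i, ∀ j ∈ S, Dep U a i j → i ∈ S) : 2 ≤ S.card := by
  classical
  by_contra hcon
  have h1 : S.card = 1 := by
    have := hSne.card_pos
    omega
  obtain ⟨i, rfl⟩ := Finset.card_eq_one.mp h1
  obtain ⟨v0, n, hn, h⟩ := class_identity hT hs hsθ hconst {i} hSne hS hdep hmax
  have hni := (hn i (by simp)).1
  have h2 := h (n i) hni
  rw [Finset.filter_singleton, if_pos (dvd_refl _), Finset.sum_singleton, mul_eq_zero] at h2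
  rcases h2 with h2 | h2
  · exact hni (by exact_mod_cast h2)
  · exact ee_ne_zero _ h2

include hT hs hsθ hconst in
/-- a direction class is a standard relation -/
theorem class_mem (S : Finset ι) (hSne : S.Nonempty)
    (hS : ∀ i ∈ S, bv i ∉ Lam U a) (hdep : ∀ i ∈ S, ∀ j ∈ S, Dep U a i j)
    (hmax : ∀ i, ∀ j ∈ S, Dep U a i j → i ∈ S) :
    ∀ K, (∀ v ∈ Lam U a, dot v (a K) = θ v) → ∑ i ∈ S, Finsupp.single (a K i) 1 ∈ Std' := by
  classical
  intro K hK
  obtain ⟨v0, n, hn, h⟩ := class_identity hT hs hsθ hconst S hSne hS hdep hmax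
  apply class_mem_Std' S n (fun i hi => (hn i hi).1) (fun i => θ (bv i - n i • v0)) (a K)
    (dot v0 (a K)) (dot_fin (hT K).fin v0) (q := fun i k => k / n i)
  · intro i hi
    rw [isOfFinAddOrder_iff_nsmul_eq_zero]
    exact ⟨s, hs, hsθ _ (hn i hi).2⟩
  · intro i hi
    rw [← hK _ (hn i hi).2, dot_sub, dot_smul, dot_bv]
    abel
  · intro i _
    exact (hT K).ne_zero i
  · intro i _ k hd
    exact Int.mul_ediv_cancel' hd
  · exact h

/-- **Core theorem.** -/
theorem core (U : Ultrafilter ℕ) (a : ℕ → ι → UnitAddCircle) (hT : ∀ K, IsTate (a K)) :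
    ∃ (J : Finset ι) (s : ℕ), 0 < s ∧
      (∀ᶠ K in (U : Filter ℕ), (∀ i ∈ J, s • a K i = 0) ∧
        (∀ t0 : ℕ, s.Coprime t0 → ∑ i ∈ J, saw (t0 • a K i) = 0) ∧
        ∑ i ∈ Jᶜ, Finsupp.single (a K i) 1 ∈ Std') ∧
      (∀ I : Finset ι, Jᶜ.card < 2 * I.card → (∃ i ∈ I, i ∈ J) ∨
        ∃ i ∈ I, ∃ j ∈ I, i ≠ j ∧ ∃ p q : ℤ, p ≠ 0 ∧ q ≠ 0 ∧
          ∀ᶠ K in (U : Filter ℕ), s • (p • a K i - q • a K j) = 0) := by
  classical
  obtain ⟨θ, s, hs, hsθ, hconst⟩ := exists_const U a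
  set J : Finset ι := Finset.univ.filter (fun i => bv i ∈ Lam U a) with hJ
  have hJmem : ∀ i, i ∈ J ↔ bv i ∈ Lam U a := by intro i; simp [hJ]
  -- classes
  set cl : ι → Finset ι := fun i => Jᶜ.filter (fun j => Dep U a i j) with hcl
  have hcl_iff : ∀ i ∈ Jᶜ, ∀ j ∈ Jᶜ, (cl i = cl j ↔ Dep U a i j) := by
    intro i hi j hj
    constructor
    · intro h
      have : j ∈ cl i := by
        rw [h]; simp only [hcl, Finset.mem_filter]; exact ⟨hj, Dep.refl j⟩
      simp only [hcl, Finset.mem_filter] at this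
      exact this.2
    · intro h
      ext k
      simp only [hcl, Finset.mem_filter]
      constructor
      · rintro ⟨hk, h'⟩; exact ⟨hk, h.symm.trans h'⟩
      · rintro ⟨hk, h'⟩; exact ⟨hk, h.trans h'⟩
  have hdepJ : ∀ i j, j ∈ Jᶜ → Dep U a i j → i ∈ Jᶜ := by
    intro i j hj h
    rw [Finset.mem_compl, hJmem] at hj ⊢
    intro hi
    apply hj
    obtain ⟨p, q, hp, hq, h⟩ := h
    apply mem_Lam_of_smul_mem hq
    have := (Lam U a).sub_mem ((Lam U a).zsmul_mem hi p) h
    simpa using this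
  -- the fibre of a class
  have hfib : ∀ T ∈ Jᶜ.image cl, ∃ S : Finset ι, S = Jᶜ.filter (fun i => cl i = T) ∧ S.Nonempty ∧
      (∀ i ∈ S, bv i ∉ Lam U a) ∧ (∀ i ∈ S, ∀ j ∈ S, Dep U a i j) ∧
      (∀ i, ∀ j ∈ S, Dep U a i j → i ∈ S) := by
    intro T hT'
    obtain ⟨i0, hi0, rfl⟩ := Finset.mem_image.mp hT'
    refine ⟨_, rfl, ⟨i0, Finset.mem_filter.mpr ⟨hi0, rfl⟩⟩, ?_, ?_, ?_⟩
    · intro i hi
      rw [Finset.mem_filter, Finset.mem_compl, hJmem] at hi
      exact hi.1
    · intro i hi j hj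
      rw [Finset.mem_filter] at hi hj
      exact (hcl_iff i hi.1 j hj.1).mp (hi.2.trans hj.2.symm)
    · intro i j hj h
      rw [Finset.mem_filter] at hj ⊢
      have hi := hdepJ i j hj.1 h
      exact ⟨hi, ((hcl_iff i hi j hj.1).mpr h).trans hj.2⟩
  refine ⟨J, s, hs, ?_, ?_⟩
  · filter_upwards [hconst] with K hK
    refine ⟨?_, ?_, ?_⟩
    · intro i hi
      rw [← dot_bv i (a K), hK _ ((hJmem i).mp hi)]
      exact hsθ _ ((hJmem i).mp hi)
    · intro t0 ht0
      have h := identity_const hT hs hsθ hconst ht0 J hJmem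
      rw [← h]
      apply Finset.sum_congr rfl
      intro i hi
      rw [← hK _ ((hJmem i).mp hi), dot_bv]
    · rw [← Finset.sum_fiberwise_of_maps_to (s := Jᶜ) (t := Jᶜ.image cl) (g := cl)
        (fun i hi => Finset.mem_image_of_mem cl hi)]
      apply Std'.sum_mem
      intro T hT'
      obtain ⟨S, hS, hne, h1, h2, h3⟩ := hfib T hT'
      rw [← hS]
      exact class_mem hT hs hsθ hconst S hne h1 h2 h3 K hK
  · intro I hI
    by_cases hIJ : ∃ i ∈ I, i ∈ J
    · exact Or.inl hIJ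
    right
    push Not at hIJ
    have hI' : ∀ i ∈ I, i ∈ Jᶜ := fun i hi => Finset.mem_compl.mpr (hIJ i hi)
    -- number of classes
    have hcard : 2 * (Jᶜ.image cl).card ≤ Jᶜ.card := by
      have h1 : Jᶜ.card = ∑ T ∈ Jᶜ.image cl, (Jᶜ.filter (fun i => cl i = T)).card :=
        Finset.card_eq_sum_card_fiberwise (fun i hi => Finset.mem_image_of_mem cl hi)
      rw [h1, mul_comm, ← smul_eq_mul, ← Finset.sum_const]
      apply Finset.sum_le_sum
      intro T hT'
      obtain ⟨S, hS, hne, h1, h2, h3⟩ := hfib T hT'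
      rw [← hS]
      exact class_two_le hT hs hsθ hconst S hne h1 h2 h3
    have hlt : (Jᶜ.image cl).card < I.card := by omega
    obtain ⟨i, hi, j, hj, hij, hclij⟩ := Finset.exists_ne_map_eq_of_card_lt_of_maps_to hlt
      (f := cl) (fun i hi => Finset.mem_image_of_mem cl (hI' i hi))
    refine ⟨i, hi, j, hj, hij, ?_⟩
    obtain ⟨p, q, hp, hq, h⟩ := (hcl_iff i (hI' i hi) j (hI' j hj)).mp hclij
    refine ⟨p, q, hp, hq, ?_⟩
    filter_upwards [hconst] with K hK
    have h1 := hK _ h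
    rw [dot_sub, dot_smul, dot_smul, dot_bv, dot_bv] at h1
    rw [h1]
    exact hsθ _ h

end Pool.Agent.Lib.MP_938ce2_ag_H7
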