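import Pool.Agent.Lib.MP_938ce2_ag_H7.Limit

/-!
# The limit argument
-/

open Filter Topology MeasureTheory Finset AddCircle

namespace Pool.Agent.Lib.MP_938ce2_ag_H7

/-! ### windows -/

/-- indicator function of a residue class -/
noncomputable def win (s t0 : ℕ) (t : ℕ) : ℂ := if t % s = t0 % s then 1 else 0

lemma norm_win_le (s t0 t : ℕ) : ‖win s t0 t‖ ≤ 1 := by
  unfold win; split_ifs <;> simp

lemma win_mod (s t0 t : ℕ) : win s t0 t = win s t0 (t % s) := by
  unfold win; simp

lemma avg_win_mul {s t0 m : ℕ} (hm : 0 < m) (hs : s ∣ m) (ht0 : s.Coprime t0) {f : ℕ → ℂ}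
    (hf : ∀ t, s.Coprime t → f t = f (t % s)) :
    avg m (fun t => win s t0 t * f t) = f t0 / (s.totient : ℂ) := by
  have hs0 : 0 < s := Nat.pos_of_dvd_of_pos hs hm
  have h0 : avg m (fun t => win s t0 t * f t) = avg m (fun t => win s t0 t * f (t % s)) := by
    apply avg_congr
    intro t ht
    rw [← hf t (Nat.Coprime.coprime_dvd_left hs ht)]
  rw [h0, avg_dvd hm hs]
  · unfold avg
    congr 1
    have hmem : t0 % s ∈ cop s := by
      simp only [cop, Finset.mem_filter, Finset.mem_range]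
      refine ⟨Nat.mod_lt _ hs0, ?_⟩
      rw [Nat.coprime_comm, Nat.Coprime, ← Nat.gcd_rec]
      exact ht0
    rw [Finset.sum_eq_single_of_mem _ hmem]
    · simp only [win, Nat.mod_mod, if_true, one_mul]
      rw [← hf t0 ht0]
    · intro t ht hne
      simp only [cop, Finset.mem_filter, Finset.mem_range] at ht
      have : ¬ (t % s = t0 % s) := by
        rw [Nat.mod_eq_of_lt ht.1]; exact hne
      simp [win, this]
  · intro t
    simp only [Nat.mod_mod, win]

/-- the point `1/s` -/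
noncomputable def pt (s : ℕ) : UnitAddCircle := ((1 / (s : ℝ) : ℝ) : UnitAddCircle)

lemma addOrderOf_pt {s : ℕ} (hs : 0 < s) : addOrderOf (pt s) = s :=
  AddCircle.addOrderOf_period_div hs

lemma nsmul_pt (s : ℕ) (hs : 0 < s) : s • pt s = 0 := by
  have h := addOrderOf_nsmul_eq_zero (pt s)
  rwa [addOrderOf_pt hs] at h

lemma win_eq_sum {s : ℕ} (hs : 0 < s) (t0 t : ℕ) :
    win s t0 t = (1 / (s : ℂ)) * ∑ j ∈ Finset.range s, ee (t • (j • pt s)) * ee (-(t0 • (j • pt s))) := by
  have hs' : (s : ℂ) ≠ 0 := by exact_mod_cast hs.ne'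
  have h1 : ∀ j : ℕ, ee (t • (j • pt s)) * ee (-(t0 • (j • pt s))) =
      (ee (t • pt s - t0 • pt s)) ^ j := by
    intro j
    rw [← ee_add, ← ee_nsmul]
    congr 1
    rw [smul_sub, smul_comm, smul_comm t0, sub_eq_add_neg]
  simp_rw [h1]
  unfold win
  split_ifs with h
  · have : t • pt s - t0 • pt s = 0 := by
      rw [← mod_addOrderOf_nsmul (pt s) t, ← mod_addOrderOf_nsmul (pt s) t0, addOrderOf_pt hs, h,
        sub_self]
    rw [this]
    simp [hs']
  · have hne : t • pt s - t0 • pt s ≠ 0 := by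
      intro h0
      rw [sub_eq_zero] at h0
      apply h
      have := nsmul_eq_nsmul_iff_modEq.mp h0
      rwa [addOrderOf_pt hs] at this
    have hz : ee (t • pt s - t0 • pt s) ≠ 1 := fun h' => hne (ee_eq_one_iff.mp h')
    rw [geom_sum_eq hz, ← ee_nsmul, smul_sub, smul_comm, smul_comm s t0, nsmul_pt s hs]
    simp

lemma Big.add_const {l : Filter ℕ} {z : ℕ → UnitAddCircle} (hz : Big l z)
    (hfin : ∀ K, 0 < addOrderOf (z K)) {c : UnitAddCircle} {s : ℕ} (hs : 0 < s) (hc : s • c = 0) :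
    Big l (fun K => z K + c) := by
  unfold Big at *
  rw [tendsto_atTop] at *
  intro B
  filter_upwards [hz (B * s + 1)] with K hK
  by_contra hcon
  push Not at hcon
  have hpos : 0 < addOrderOf (z K + c) := by
    rw [addOrderOf_pos_iff]
    have h1 : IsOfFinAddOrder (z K) := addOrderOf_pos_iff.mp (hfin K)
    have h2 : IsOfFinAddOrder c := isOfFinAddOrder_iff_nsmul_eq_zero.mpr ⟨s, hs, hc⟩
    exact h1.add h2
  have h3 : (addOrderOf (z K + c) * s) • z K = 0 := by
    have h4 : (addOrderOf (z K + c) * s) • (z K + c) = 0 := by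
      rw [mul_comm, mul_smul, addOrderOf_nsmul_eq_zero, smul_zero]
    rw [smul_add, mul_smul _ s c, hc, smul_zero, add_zero] at h4
    exact h4
  have h5 := Nat.le_of_dvd (Nat.mul_pos hpos hs) (addOrderOf_dvd_of_nsmul_eq_zero h3)
  have h6 : addOrderOf (z K + c) * s ≤ B * s := Nat.mul_le_mul_right _ hcon.le
  omega

lemma Big.avg_win_tendsto {l : Filter ℕ} {m : ℕ → ℕ} (hm : ∀ K, 0 < m K) {z : ℕ → UnitAddCircle}
    (hz : ∀ K, m K • z K = 0) (h : Big l z) {s t0 : ℕ} (hs : 0 < s) (hsm : ∀ K, s ∣ m K) :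
    Tendsto (fun K => avg (m K) (fun t => win s t0 t * ee (t • z K))) l (𝓝 0) := by
  have hfin : ∀ K, 0 < addOrderOf (z K) := fun K =>
    Nat.pos_of_dvd_of_pos (addOrderOf_dvd_of_nsmul_eq_zero (hz K)) (hm K)
  have h1 : ∀ j ∈ Finset.range s, Tendsto (fun K => ee (-(t0 • (j • pt s))) *
      avg (m K) (fun t => ee (t • (z K + j • pt s)))) l (𝓝 0) := by
    intro j _
    have hc : s • (j • pt s) = 0 := by rw [smul_comm, nsmul_pt s hs, smul_zero]
    have h2 := (h.add_const hfin hs hc).avg_tendsto hm (fun K => by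
      rw [smul_add, hz, zero_add]
      obtain ⟨c, hc'⟩ := hsm K
      rw [hc', mul_comm, mul_smul, hc, smul_zero])
    simpa using h2.const_mul (ee (-(t0 • (j • pt s))))
  have h3 := (tendsto_finsetSum _ h1).const_mul (1 / (s : ℂ))
  simp only [Finset.sum_const_zero, mul_zero] at h3
  refine h3.congr fun K => ?_
  simp_rw [← avg_mul_left]
  rw [← avg_sum, ← avg_mul_left]
  apply avg_congr
  intro t _
  rw [win_eq_sum hs, mul_assoc, Finset.sum_mul]
  congr 1
  apply Finset.sum_congr rfl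
  intro j _
  rw [smul_add, ee_add]
  ring

/-! ### the set-up -/

variable {ι : Type*} [Fintype ι] [DecidableEq ι]

/-- integral linear combinations -/
noncomputable def dot (v : ι → ℤ) (x : ι → UnitAddCircle) : UnitAddCircle := ∑ i, v i • x i

omit [DecidableEq ι] in
lemma dot_add (v w : ι → ℤ) (x : ι → UnitAddCircle) : dot (v + w) x = dot v x + dot w x := by
  simp [dot, add_smul, Finset.sum_add_distrib]

omit [DecidableEq ι] in
lemma dot_sub (v w : ι → ℤ) (x : ι → UnitAddCircle) : dot (v - w) x = dot v x - dot w x := by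
  simp [dot, sub_smul, Finset.sum_sub_distrib]

omit [DecidableEq ι] in
@[simp] lemma dot_zero (x : ι → UnitAddCircle) : dot (0 : ι → ℤ) x = 0 := by simp [dot]

omit [DecidableEq ι] in
lemma dot_smul (k : ℤ) (v : ι → ℤ) (x : ι → UnitAddCircle) : dot (k • v) x = k • dot v x := by
  simp [dot, Finset.smul_sum, mul_smul]

/-- basis vectors -/
def bv (i : ι) : ι → ℤ := Pi.single i 1

@[simp] lemma dot_bv (i : ι) (x : ι → UnitAddCircle) : dot (bv i) x = x i := by
  unfold dot bv
  rw [Finset.sum_eq_single_of_mem i (Finset.mem_univ i)]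
  · simp
  · intro j _ hj
    simp [Pi.single_eq_of_ne hj]

/-- The Tate condition: non-zero coordinates of finite order, and
`∑ ⟨t aᵢ⟩ = N / 2` for all `t` prime to the orders. -/
structure IsTate (a : ι → UnitAddCircle) : Prop where
  ne_zero : ∀ i, a i ≠ 0
  fin : ∀ i, IsOfFinAddOrder (a i)
  sum_eq : ∀ t : ℕ, (∀ i, Nat.Coprime t (addOrderOf (a i))) →
    ∑ i, fr (t • a i) = (Fintype.card ι : ℝ) / 2

omit [DecidableEq ι] in
lemma IsTate.sum_saw {a : ι → UnitAddCircle} (h : IsTate a) {t : ℕ}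
    (ht : ∀ i, Nat.Coprime t (addOrderOf (a i))) : ∑ i, saw (t • a i) = 0 := by
  unfold saw
  rw [Finset.sum_sub_distrib, h.sum_eq t ht, Finset.sum_const, Finset.card_univ, nsmul_eq_mul]
  ring

omit [DecidableEq ι] in
lemma dot_fin {x : ι → UnitAddCircle} (hx : ∀ i, IsOfFinAddOrder (x i)) (v : ι → ℤ) :
    IsOfFinAddOrder (dot v x) := by
  classical
  unfold dot
  induction (Finset.univ : Finset ι) using Finset.induction_on with
  | empty => simp
  | insert i s hi ih =>
    rw [Finset.sum_insert hi]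
    exact ((hx i).zsmul).add ih

/-- the lattice of relations of bounded order -/
def Lam (U : Ultrafilter ℕ) (a : ℕ → ι → UnitAddCircle) : AddSubgroup (ι → ℤ) where
  carrier := {v | ∃ s : ℕ, 0 < s ∧ ∀ᶠ K in (U : Filter ℕ), s • dot v (a K) = 0}
  zero_mem' := ⟨1, one_pos, by simp⟩
  add_mem' := by
    rintro v w ⟨s, hs, h⟩ ⟨s', hs', h'⟩
    refine ⟨s * s', Nat.mul_pos hs hs', ?_⟩
    filter_upwards [h, h'] with K h1 h2
    rw [dot_add, smul_add, mul_comm, mul_smul, h1, smul_zero, mul_comm, mul_smul, h2, smul_zero,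
      add_zero]
  neg_mem' := by
    rintro v ⟨s, hs, h⟩
    refine ⟨s, hs, ?_⟩
    filter_upwards [h] with K h1
    have : dot (-v) (a K) = - dot v (a K) := by simp [dot]
    rw [this, smul_neg, h1, neg_zero]

variable {U : Ultrafilter ℕ} {a : ℕ → ι → UnitAddCircle}

omit [DecidableEq ι] in
lemma mem_Lam_of_smul_mem {k : ℤ} (hk : k ≠ 0) {v : ι → ℤ} (h : k • v ∈ Lam U a) :
    v ∈ Lam U a := by
  obtain ⟨s, hs, h⟩ := h
  refine ⟨s * k.natAbs, Nat.mul_pos hs (Int.natAbs_pos.mpr hk), ?_⟩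
  filter_upwards [h] with K h1
  rw [dot_smul] at h1
  rcases Int.natAbs_eq k with h2 | h2
  · rw [h2, natCast_zsmul] at h1
    rw [mul_smul]; exact h1
  · rw [h2, neg_smul, natCast_zsmul, smul_neg, neg_eq_zero] at h1
    rw [mul_smul]; exact h1

omit [DecidableEq ι] in
lemma big_of_notMem_Lam (hfin : ∀ K i, IsOfFinAddOrder (a K i)) {v : ι → ℤ}
    (hv : v ∉ Lam U a) : Big U (fun K => dot v (a K)) := by
  unfold Big
  rw [tendsto_atTop]
  intro B
  by_contra hcon
  rw [Ultrafilter.eventually_not.symm] at hcon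
  apply hv
  refine ⟨B.factorial, Nat.factorial_pos _, ?_⟩
  filter_upwards [hcon] with K hK
  push Not at hK
  have hpos : 0 < addOrderOf (dot v (a K)) := addOrderOf_pos_iff.mpr (dot_fin (hfin K) v)
  obtain ⟨c, hc⟩ := Nat.dvd_factorial hpos hK.le
  rw [hc, mul_comm, mul_smul, addOrderOf_nsmul_eq_zero, smul_zero]

omit [DecidableEq ι] in
/-- on a set of the ultrafilter all relations of bounded order have constant values -/
lemma exists_const (U : Ultrafilter ℕ) (a : ℕ → ι → UnitAddCircle) :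
    ∃ (θ : (ι → ℤ) → UnitAddCircle) (s : ℕ), 0 < s ∧ (∀ v ∈ Lam U a, s • θ v = 0) ∧
      ∀ᶠ K in (U : Filter ℕ), ∀ v ∈ Lam U a, dot v (a K) = θ v := by
  classical
  -- finite generation
  have hfg : (Lam U a).FG := by
    have := (isNoetherian_def.mp (inferInstance : IsNoetherian ℤ (ι → ℤ)))
      (AddSubgroup.toIntSubmodule (Lam U a))
    have h2 := (Submodule.fg_iff_addSubgroup_fg _).mp this
    simpa using h2
  obtain ⟨G, hG⟩ := hfg
  have hgen : ∀ w ∈ G, ∃ (θ : UnitAddCircle) (s : ℕ), 0 < s ∧ s • θ = 0 ∧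
      ∀ᶠ K in (U : Filter ℕ), dot w (a K) = θ := by
    intro w hw
    have hw' : w ∈ Lam U a := by rw [← hG]; exact AddSubgroup.subset_closure hw
    obtain ⟨s, hs, h⟩ := hw'
    have hfin : Set.Finite {x : UnitAddCircle | s • x = 0} := AddCircle.finite_torsion 1 hs
    have h2 : (⋃ x ∈ {x : UnitAddCircle | s • x = 0}, {K | dot w (a K) = x}) ∈ U := by
      refine mem_of_superset h ?_
      intro K hK
      simp only [Set.mem_iUnion]
      exact ⟨dot w (a K), hK, rfl⟩
    rw [Ultrafilter.finite_biUnion_mem_iff hfin] at h2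
    obtain ⟨x, hx, h3⟩ := h2
    exact ⟨x, s, hs, hx, h3⟩
  choose! θ s hs hsθ hθ using hgen
  have hall : ∀ᶠ K in (U : Filter ℕ), ∀ w ∈ G, dot w (a K) = θ w :=
    (Filter.eventually_all_finset G).mpr hθ
  obtain ⟨K0, hK0⟩ := hall.exists
  have hdot : ∀ K, (∀ w ∈ G, dot w (a K) = θ w) → ∀ v ∈ Lam U a, dot v (a K) = dot v (a K0) := by
    intro K hK v hv
    rw [← hG] at hv
    induction hv using AddSubgroup.closure_induction with
    | mem w hw => rw [hK w hw, hK0 w hw]
    | zero => simp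
    | add v w _ _ h1 h2 => rw [dot_add, dot_add, h1, h2]
    | neg v _ h1 =>
      have e : ∀ K, dot (-v) (a K) = - dot v (a K) := fun K => by simp [dot]
      rw [e, e, h1]
  refine ⟨fun v => dot v (a K0), ∏ w ∈ G, s w, Finset.prod_pos hs, ?_, ?_⟩
  · intro v hv
    rw [← hG] at hv
    induction hv using AddSubgroup.closure_induction with
    | mem w hw =>
      dsimp only
      rw [hK0 w hw]
      obtain ⟨c, hc⟩ := Finset.dvd_prod_of_mem s hw
      rw [hc, mul_comm, mul_smul, hsθ w hw, smul_zero]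
    | zero => simp
    | add v w _ _ h1 h2 =>
      dsimp only at *
      rw [dot_add, smul_add, h1, h2, add_zero]
    | neg v _ h1 =>
      dsimp only at *
      have e : dot (-v) (a K0) = - dot v (a K0) := by simp [dot]
      rw [e, smul_neg, h1, neg_zero]
  · filter_upwards [hall] with K hK
    exact hdot K hK

end Pool.Agent.Lib.MP_938ce2_ag_H7
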