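import Pool.Agent.Lib.MP_938ce2_ag_H7.Reduction

/-!
# Counting exceptional Tate characters
-/

open Filter Topology Finset

namespace Pool.Agent.Lib.MP_938ce2_ag_H7

/-- the group generated by the standard relations and the Tate characters of Fermat surfaces -/
noncomputable def SurfStd : AddSubgroup (UnitAddCircle →₀ ℤ) :=
  AddSubgroup.closure (stdGen ∪ {w | ∃ b : Fin 4 → UnitAddCircle, IsTate b ∧ w = fs b})

lemma Std_le_SurfStd : Std ≤ SurfStd := AddSubgroup.closure_mono Set.subset_union_left

lemma fs_mem_SurfStd {N' : ℕ} {b : Fin N' → UnitAddCircle} (hev : Even N') (h4 : N' ≤ 5)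
    (hb : IsTate b) : fs b ∈ SurfStd := by
  have hcases : N' = 0 ∨ N' = 2 ∨ N' = 4 := by
    obtain ⟨c, rfl⟩ := hev
    omega
  rcases hcases with rfl | rfl | rfl
  · have : fs b = 0 := by simp [fs]
    rw [this]; exact SurfStd.zero_mem
  · apply Std_le_SurfStd
    have h1 := hb.sum_saw (t := 1) (fun i => Nat.coprime_one_left _)
    simp only [one_smul, Fin.sum_univ_two] at h1
    have h2 : b 1 = - b 0 := by
      have h3 : fr (b 1) = fr (-(b 0)) := by
        rw [fr_neg (hb.ne_zero 0)]
        unfold saw at h1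
        linarith
      rw [← coe_fr (b 1), h3, coe_fr]
    apply AddSubgroup.subset_closure
    refine Or.inl ⟨b 0, hb.fin 0, hb.ne_zero 0, ?_⟩
    unfold fs
    rw [Fin.sum_univ_two, h2]
  · apply AddSubgroup.subset_closure
    exact Or.inr ⟨b, hb, rfl⟩

/-- relation of bounded height between two points -/
def Rl (B : ℕ) (x y : UnitAddCircle) : Prop :=
  ∃ p q : ℤ, p ≠ 0 ∧ q ≠ 0 ∧ |p| ≤ B ∧ |q| ≤ B ∧ B • (p • x - q • y) = 0

lemma Rl.symm {B : ℕ} {x y : UnitAddCircle} (h : Rl B x y) : Rl B y x := by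
  obtain ⟨p, q, hp, hq, h1, h2, h3⟩ := h
  refine ⟨q, p, hq, hp, h2, h1, ?_⟩
  have : q • y - p • x = -(p • x - q • y) := by abel
  rw [this, smul_neg, h3, neg_zero]

/-- exceptional characters satisfy many relations -/
theorem exists_uniform (l : ℕ) (hl : 3 ≤ l) :
    ∃ B : ℕ, 0 < B ∧ ∀ a : Fin (2 * l) → UnitAddCircle, IsTate a → fs a ∉ SurfStd →
      ∀ I : Finset (Fin (2 * l)), l - 2 ≤ I.card → (∃ i ∈ I, B • a i = 0) ∨
        ∃ i ∈ I, ∃ j ∈ I, i ≠ j ∧ Rl B (a i) (a j) := by
  classical
  by_contra hcon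
  push Not at hcon
  have hex : ∀ K : ℕ, ∃ (a : Fin (2 * l) → UnitAddCircle) (I : Finset (Fin (2 * l))), IsTate a ∧
      fs a ∉ SurfStd ∧ l - 2 ≤ I.card ∧ (∀ i ∈ I, (K + 2).factorial • a i ≠ 0) ∧
      ∀ i ∈ I, ∀ j ∈ I, i ≠ j → ¬ Rl (K + 2).factorial (a i) (a j) := by
    intro K
    obtain ⟨a, h1, h2, I, h3, h4, h5⟩ := hcon _ (Nat.factorial_pos (K + 2))
    exact ⟨a, I, h1, h2, h3, h4, h5⟩
  choose a I hT hns hI hI1 hI2 using hex
  set U : Ultrafilter ℕ := Filter.hyperfilter ℕ with hU
  obtain ⟨J, s, hs, hev, hrel⟩ := core U a hT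
  -- constant index set
  obtain ⟨I0, hI0⟩ : ∃ I0 : Finset (Fin (2 * l)), ∀ᶠ K in (U : Filter ℕ), I K = I0 := by
    have h2 : (⋃ x ∈ (Set.univ : Set (Finset (Fin (2 * l)))), {K | I K = x}) ∈ U := by
      refine mem_of_superset (Filter.univ_mem) ?_
      intro K _
      simp
    rw [Ultrafilter.finite_biUnion_mem_iff Set.finite_univ] at h2
    obtain ⟨x, _, h3⟩ := h2
    exact ⟨x, h3⟩
  have hlarge : ∀ n : ℕ, ∀ᶠ K in (U : Filter ℕ), n ≤ K := fun n =>
    (Nat.hyperfilter_le_atTop) (eventually_ge_atTop n)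
  have hI0card : l - 2 ≤ I0.card := by
    obtain ⟨K, hK⟩ := hI0.exists
    rw [← hK]; exact hI K
  -- I0 has no relations
  have hJc : 2 * I0.card ≤ Jᶜ.card := by
    by_contra hlt
    push Not at hlt
    rcases hrel I0 hlt with ⟨i, hi, hiJ⟩ | ⟨i, hi, j, hj, hij, p, q, hp, hq, h⟩
    · obtain ⟨K, ⟨⟨hK1, _, _⟩, hK2⟩, hK3⟩ := ((hev.and hI0).and (hlarge s)).exists
      obtain ⟨c, hc⟩ : s ∣ (K + 2).factorial := Nat.dvd_factorial hs (by omega)
      apply hI1 K i (by rw [hK2]; exact hi)
      rw [hc, mul_comm, mul_smul, hK1 i hiJ, smul_zero]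
    · obtain ⟨K, ⟨hK1, hK2⟩, hK3⟩ := ((h.and hI0).and (hlarge (s + p.natAbs + q.natAbs))).exists
      obtain ⟨c, hc⟩ : s ∣ (K + 2).factorial := Nat.dvd_factorial hs (by omega)
      have hfac : K + 2 ≤ (K + 2).factorial := Nat.self_le_factorial _
      apply hI2 K i (by rw [hK2]; exact hi) j (by rw [hK2]; exact hj) hij
      refine ⟨p, q, hp, hq, ?_, ?_, ?_⟩
      · rw [Int.abs_eq_natAbs]; exact_mod_cast (by omega : p.natAbs ≤ (K + 2).factorial)
      · rw [Int.abs_eq_natAbs]; exact_mod_cast (by omega : q.natAbs ≤ (K + 2).factorial)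
      · rw [hc, mul_comm, mul_smul, hK1, smul_zero]
  have hJ4 : J.card ≤ 4 := by
    have := Finset.card_compl J
    rw [Fintype.card_fin] at this
    have h2 : J.card ≤ 2 * l := by
      have := Finset.card_le_univ J
      simpa using this
    omega
  obtain ⟨K, ⟨hK1, hK2, hK3⟩⟩ := hev.exists
  obtain ⟨N', b, h1, h2, -, h3, -, h5⟩ := step (by exact ⟨l, by ring⟩) (hT K) hs hK1 hK2 hK3
  apply hns K
  have := SurfStd.add_mem (Std_le_SurfStd h5) (fs_mem_SurfStd h1 (by omega) h3)
  simpa using this

/-! ### counting -/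

/-- the points of order dividing `m` -/
noncomputable def tors (m : ℕ) : Finset UnitAddCircle :=
  if h : 0 < m then (AddCircle.finite_torsion (1:ℝ) h).toFinset else ∅

lemma mem_tors {m : ℕ} (hm : 0 < m) {x : UnitAddCircle} : x ∈ tors m ↔ m • x = 0 := by
  unfold tors
  rw [dif_pos hm]
  simp

lemma card_tors_le (m : ℕ) : (tors m).card ≤ m := by
  rcases Nat.eq_zero_or_pos m with rfl | hm
  · simp [tors]
  have h1 := AddCircle.card_torsion_le_of_isSMulRegular (1:ℝ) m hm.ne'
    (.of_right_eq_zero_of_smul fun _ ↦ by simp [hm.ne'])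
  have h2 : ((tors m : Finset UnitAddCircle) : Set UnitAddCircle) = {x | m • x = 0} := by
    ext x; simp [mem_tors hm]
  have h3 : {x : UnitAddCircle | m • x = 0}.encard = ((tors m).card : ℕ∞) := by
    rw [← h2, Set.encard_coe_eq_coe_finsetCard]
  rw [h3] at h1
  exact_mod_cast h1

/-- the solutions of `c • x = y` -/
lemma exists_finset_solutions (c : ℤ) (hc : c ≠ 0) (y : UnitAddCircle) :
    ∃ F : Finset UnitAddCircle, F.card ≤ c.natAbs ∧ ∀ x, c • x = y → x ∈ F := by
  classical
  by_cases h : ∃ x0 : UnitAddCircle, c • x0 = y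
  · obtain ⟨x0, hx0⟩ := h
    refine ⟨(tors c.natAbs).image (fun z => z + x0), ?_, ?_⟩
    · exact Finset.card_image_le.trans (card_tors_le _)
    · intro x hx
      rw [Finset.mem_image]
      refine ⟨x - x0, ?_, by abel⟩
      rw [mem_tors (Int.natAbs_pos.mpr hc)]
      have h1 : c • (x - x0) = 0 := by rw [smul_sub, hx, hx0, sub_self]
      rcases Int.natAbs_eq c with h2 | h2
      · rw [h2, natCast_zsmul] at h1; exact h1
      · rw [h2, neg_smul, natCast_zsmul, neg_eq_zero] at h1; exact h1
  · refine ⟨∅, by simp, ?_⟩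
    intro x hx
    exact absurd ⟨x, hx⟩ h

/-- the points related to a given point -/
lemma exists_finset_Rl (B : ℕ) (hB : 0 < B) (x : UnitAddCircle) :
    ∃ F : Finset UnitAddCircle, F.card ≤ (2 * B + 1) ^ 2 * (B * B) ∧ ∀ y, Rl B y x → y ∈ F := by
  classical
  choose! G hG1 hG2 using exists_finset_solutions
  set P : Finset (ℤ × ℤ) := (Finset.Icc (-(B:ℤ)) B ×ˢ Finset.Icc (-(B:ℤ)) B).filter
    (fun pq => pq.1 ≠ 0) with hP
  refine ⟨P.biUnion (fun pq => G ((B:ℤ) * pq.1) (((B:ℤ) * pq.2) • x)), ?_, ?_⟩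
  · calc (P.biUnion (fun pq => G ((B:ℤ) * pq.1) (((B:ℤ) * pq.2) • x))).card
        ≤ ∑ pq ∈ P, (G ((B:ℤ) * pq.1) (((B:ℤ) * pq.2) • x)).card := Finset.card_biUnion_le
      _ ≤ ∑ pq ∈ P, B * B := by
          apply Finset.sum_le_sum
          intro pq hpq
          rw [hP, Finset.mem_filter, Finset.mem_product, Finset.mem_Icc] at hpq
          have hne : (B:ℤ) * pq.1 ≠ 0 := mul_ne_zero (by exact_mod_cast hB.ne') hpq.2
          refine (hG1 _ hne _).trans ?_
          rw [Int.natAbs_mul, Int.natAbs_natCast]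
          apply Nat.mul_le_mul_left
          have := hpq.1.1
          omega
      _ = P.card * (B * B) := by rw [Finset.sum_const, smul_eq_mul]
      _ ≤ (2 * B + 1) ^ 2 * (B * B) := by
          apply Nat.mul_le_mul_right
          refine (Finset.card_filter_le _ _).trans ?_
          rw [Finset.card_product, Int.card_Icc, sq]
          apply le_of_eq
          have : ((B:ℤ) + 1 - -(B:ℤ)).toNat = 2 * B + 1 := by omega
          rw [this]
  · intro y ⟨p, q, hp, hq, h1, h2, h3⟩
    rw [Finset.mem_biUnion]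
    refine ⟨(p, q), ?_, ?_⟩
    · rw [hP, Finset.mem_filter, Finset.mem_product, Finset.mem_Icc, Finset.mem_Icc]
      rw [abs_le] at h1 h2
      exact ⟨⟨h1, h2⟩, hp⟩
    · apply hG2 _ (mul_ne_zero (by exact_mod_cast hB.ne') hp)
      rw [smul_sub, sub_eq_zero] at h3
      rw [mul_smul, mul_smul, natCast_zsmul, natCast_zsmul]
      exact h3

/-- **Counting lemma**: families whose large index sets all carry a relation of height `B`. -/
theorem count_bound (N r B : ℕ) (hB : 0 < B) :
    ∃ C : ℕ, ∀ m : ℕ, 0 < m → ∀ X : Finset (Fin N → UnitAddCircle),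
      (∀ a ∈ X, ∀ i, m • a i = 0) →
      (∀ a ∈ X, ∀ I : Finset (Fin N), r + 1 ≤ I.card → (∃ i ∈ I, B • a i = 0) ∨
        ∃ i ∈ I, ∃ j ∈ I, i ≠ j ∧ Rl B (a i) (a j)) →
      X.card ≤ C * m ^ r := by
  classical
  choose F hF1 hF2 using exists_finset_Rl B hB
  set D : ℕ := B + N * ((2 * B + 1) ^ 2 * (B * B)) with hD
  have hD1 : 1 ≤ D := by omega
  refine ⟨2 ^ N * D ^ N, ?_⟩
  intro m hm X hX1 hX2
  -- candidate set for the other coordinates
  set T : Finset (Fin N) → (Fin N → UnitAddCircle) → Finset UnitAddCircle := fun I c =>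
    tors B ∪ I.biUnion (fun i => F (c i)) with hT
  have hTcard : ∀ I c, (T I c).card ≤ D := by
    intro I c
    refine (Finset.card_union_le _ _).trans ?_
    refine Nat.add_le_add (card_tors_le B) ?_
    calc (I.biUnion (fun i => F (c i))).card ≤ ∑ i ∈ I, (F (c i)).card := Finset.card_biUnion_le
      _ ≤ ∑ i ∈ I, (2 * B + 1) ^ 2 * (B * B) := Finset.sum_le_sum fun i _ => hF1 _
      _ = I.card * ((2 * B + 1) ^ 2 * (B * B)) := by rw [Finset.sum_const, smul_eq_mul]
      _ ≤ N * ((2 * B + 1) ^ 2 * (B * B)) := by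
          apply Nat.mul_le_mul_right
          simpa using Finset.card_le_univ I
  -- decomposition
  set Y : Finset (Fin N) → Finset (Fin N → UnitAddCircle) := fun I =>
    X.filter (fun a => ∀ j, j ∉ I → a j ∈ T I a) with hY
  have hcover : X ⊆ ((Finset.univ : Finset (Finset (Fin N))).filter (fun I => I.card ≤ r)).biUnion Y := by
    intro a ha
    set P : Finset (Fin N) → Prop := fun I => (∀ i ∈ I, B • a i ≠ 0) ∧
      ∀ i ∈ I, ∀ j ∈ I, i ≠ j → ¬ Rl B (a i) (a j) with hP
    have hP0 : P ∅ := by simp [hP]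
    obtain ⟨I, hI, hImax⟩ := Finset.exists_max_image
      ((Finset.univ : Finset (Finset (Fin N))).filter P) Finset.card
      ⟨∅, Finset.mem_filter.mpr ⟨Finset.mem_univ _, hP0⟩⟩
    rw [Finset.mem_filter] at hI
    have hIP := hI.2
    rw [Finset.mem_biUnion]
    refine ⟨I, ?_, ?_⟩
    · rw [Finset.mem_filter]
      refine ⟨Finset.mem_univ _, ?_⟩
      by_contra hlt
      push Not at hlt
      rcases hX2 a ha I hlt with ⟨i, hi, h⟩ | ⟨i, hi, j, hj, hij, h⟩
      · exact hIP.1 i hi h
      · exact hIP.2 i hi j hj hij h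
    · rw [hY, Finset.mem_filter]
      refine ⟨ha, ?_⟩
      intro j hj
      by_contra hjT
      rw [hT, Finset.mem_union, not_or, mem_tors hB, Finset.mem_biUnion] at hjT
      have hPins : P (insert j I) := by
        constructor
        · intro i hi
          rcases Finset.mem_insert.mp hi with rfl | hi
          · exact hjT.1
          · exact hIP.1 i hi
        · intro i hi k hk hik h
          rcases Finset.mem_insert.mp hi with hi' | hi'
          · rcases Finset.mem_insert.mp hk with hk' | hk'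
            · exact hik (hi'.trans hk'.symm)
            · subst hi'
              exact hjT.2 ⟨k, hk', hF2 _ _ h⟩
          · rcases Finset.mem_insert.mp hk with hk' | hk'
            · subst hk'
              exact hjT.2 ⟨i, hi', hF2 _ _ h.symm⟩
            · exact hIP.2 i hi' k hk' hik h
      have := hImax (insert j I) (Finset.mem_filter.mpr ⟨Finset.mem_univ _, hPins⟩)
      rw [Finset.card_insert_of_notMem hj] at this
      omega
  -- size of each piece
  have hYcard : ∀ I : Finset (Fin N), I.card ≤ r → (Y I).card ≤ D ^ N * m ^ r := by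
    intro I hI
    set ρ : (Fin N → UnitAddCircle) → (Fin N → UnitAddCircle) := fun a j =>
      if j ∈ I then a j else 0 with hρ
    have hfib : ∀ c ∈ (Y I).image ρ, ((Y I).filter (fun a => ρ a = c)).card ≤ D ^ N := by
      intro c _
      have hsub : (Y I).filter (fun a => ρ a = c) ⊆
          Fintype.piFinset (fun j => if j ∈ I then {c j} else T I c) := by
        intro a ha
        rw [Finset.mem_filter, hY, Finset.mem_filter] at ha
        rw [Fintype.mem_piFinset]
        intro j
        by_cases hj : j ∈ I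
        · rw [if_pos hj, Finset.mem_singleton, ← ha.2]
          simp only [hρ]; rw [if_pos hj]
        · rw [if_neg hj]
          have h1 := ha.1.2 j hj
          have h2 : T I a = T I c := by
            simp only [hT]
            congr 1
            apply Finset.biUnion_congr rfl
            intro i hi
            rw [← ha.2]
            simp only [hρ]; rw [if_pos hi]
          rwa [h2] at h1
      refine (Finset.card_le_card hsub).trans ?_
      rw [Fintype.card_piFinset]
      calc ∏ j : Fin N, (if j ∈ I then {c j} else T I c : Finset UnitAddCircle).card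
          ≤ ∏ j : Fin N, D := by
            apply Finset.prod_le_prod' 
            intro j _
            split_ifs
            · simpa using hD1
            · exact hTcard I c
        _ = D ^ N := by simp
    have himg : ((Y I).image ρ).card ≤ m ^ r := by
      have hsub : (Y I).image ρ ⊆ Fintype.piFinset (fun j => if j ∈ I then tors m else {0}) := by
        intro c hc
        obtain ⟨a, ha, rfl⟩ := Finset.mem_image.mp hc
        rw [hY, Finset.mem_filter] at ha
        rw [Fintype.mem_piFinset]
        intro j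
        by_cases hj : j ∈ I
        · simp only [hρ]; rw [if_pos hj, if_pos hj, mem_tors hm]
          exact hX1 a ha.1 j
        · simp only [hρ]; rw [if_neg hj, if_neg hj, Finset.mem_singleton]
      refine (Finset.card_le_card hsub).trans ?_
      rw [Fintype.card_piFinset]
      calc ∏ j : Fin N, (if j ∈ I then tors m else {0} : Finset UnitAddCircle).card
          ≤ ∏ j : Fin N, (if j ∈ I then m else 1) := by
            apply Finset.prod_le_prod'
            intro j _
            split_ifs
            · exact card_tors_le m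
            · simp
        _ = m ^ I.card := by
            rw [Finset.prod_ite_mem, Finset.univ_inter, Finset.prod_const]
        _ ≤ m ^ r := Nat.pow_le_pow_right hm hI
    calc (Y I).card ≤ D ^ N * ((Y I).image ρ).card :=
          Finset.card_le_mul_card_image (Y I) (D ^ N) hfib
      _ ≤ D ^ N * m ^ r := Nat.mul_le_mul_left _ himg
  calc X.card ≤ (((Finset.univ : Finset (Finset (Fin N))).filter
        (fun I => I.card ≤ r)).biUnion Y).card := Finset.card_le_card hcover
    _ ≤ ∑ I ∈ (Finset.univ : Finset (Finset (Fin N))).filter (fun I => I.card ≤ r), (Y I).card :=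
        Finset.card_biUnion_le
    _ ≤ ∑ I ∈ (Finset.univ : Finset (Finset (Fin N))).filter (fun I => I.card ≤ r),
          D ^ N * m ^ r := by
        apply Finset.sum_le_sum
        intro I hI
        exact hYcard I (Finset.mem_filter.mp hI).2
    _ = ((Finset.univ : Finset (Finset (Fin N))).filter (fun I => I.card ≤ r)).card *
          (D ^ N * m ^ r) := by rw [Finset.sum_const, smul_eq_mul]
    _ ≤ 2 ^ N * (D ^ N * m ^ r) := by
        apply Nat.mul_le_mul_right
        refine (Finset.card_filter_le _ _).trans ?_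
        simp
    _ = 2 ^ N * D ^ N * m ^ r := by ring

/-- **All but `O(m ^ k)` of the Tate characters of Fermat varieties of dimension `2k+4` and
degree `m` come from the standard relations and from Fermat surfaces.** -/
theorem count_exceptional (k : ℕ) :
    ∃ C : ℕ, ∀ m : ℕ, 0 < m →
      {a : Fin (2 * k + 6) → UnitAddCircle | IsTate a ∧ (∀ i, m • a i = 0) ∧
        fs a ∉ SurfStd}.encard ≤ ((C * m ^ k : ℕ) : ℕ∞) := by
  classical
  obtain ⟨B, hB, hrel⟩ := exists_uniform (k + 3) (by omega)
  have e : 2 * (k + 3) = 2 * k + 6 := by ring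
  rw [e] at hrel
  obtain ⟨C, hC⟩ := count_bound (2 * k + 6) k B hB
  refine ⟨C, ?_⟩
  intro m hm
  set X : Finset (Fin (2 * k + 6) → UnitAddCircle) :=
    (Fintype.piFinset (fun _ => tors m)).filter (fun a => IsTate a ∧ fs a ∉ SurfStd) with hX
  have hset : {a : Fin (2 * k + 6) → UnitAddCircle | IsTate a ∧ (∀ i, m • a i = 0) ∧
        fs a ∉ SurfStd} = (X : Set (Fin (2 * k + 6) → UnitAddCircle)) := by
    ext a
    simp only [Set.mem_ofPred_eq, hX, Finset.coe_filter, Fintype.mem_piFinset, mem_tors hm]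
    tauto
  rw [hset, Set.encard_coe_eq_coe_finsetCard]
  have := hC m hm X (by
    intro a ha
    rw [hX, Finset.mem_filter, Fintype.mem_piFinset] at ha
    intro i
    exact (mem_tors hm).mp (ha.1 i)) (by
    intro a ha I hI
    rw [hX, Finset.mem_filter] at ha
    exact hrel a ha.2.1 ha.2.2 I (by omega))
  exact_mod_cast this

end Pool.Agent.Lib.MP_938ce2_ag_H7
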