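import Pool.Agent.Lib.MP_938ce2_ag_H7.Core

/-!
# The limiting identities
-/

open Filter Topology MeasureTheory Finset AddCircle

namespace Pool.Agent.Lib.MP_938ce2_ag_H7

variable {ι : Type*} [Fintype ι] [DecidableEq ι]
variable {U : Ultrafilter ℕ} {a : ℕ → ι → UnitAddCircle}

/-- modulus used for the averages -/
noncomputable def modu (s : ℕ) (x : ι → UnitAddCircle) : ℕ := s * ∏ i, addOrderOf (x i)

omit [DecidableEq ι] in
lemma modu_pos {s : ℕ} (hs : 0 < s) {x : ι → UnitAddCircle} (hx : ∀ i, IsOfFinAddOrder (x i)) :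
    0 < modu s x :=
  Nat.mul_pos hs (Finset.prod_pos fun i _ => addOrderOf_pos_iff.mpr (hx i))

omit [DecidableEq ι] in
lemma dvd_modu (s : ℕ) (x : ι → UnitAddCircle) : s ∣ modu s x := dvd_mul_right _ _

omit [DecidableEq ι] in
lemma addOrderOf_dvd_modu (s : ℕ) (x : ι → UnitAddCircle) (i : ι) : addOrderOf (x i) ∣ modu s x :=
  (Finset.dvd_prod_of_mem _ (Finset.mem_univ i)).mul_left s

omit [DecidableEq ι] in
lemma modu_smul_dot (s : ℕ) (x : ι → UnitAddCircle) (v : ι → ℤ) : modu s x • dot v x = 0 := by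
  unfold dot
  rw [Finset.smul_sum]
  apply Finset.sum_eq_zero
  intro i _
  rw [smul_comm]
  obtain ⟨c, hc⟩ := addOrderOf_dvd_modu s x i
  rw [hc, mul_comm, mul_smul, addOrderOf_nsmul_eq_zero, smul_zero, smul_zero]

omit [DecidableEq ι] in
/-- the limit of the window averages of an exponential -/
lemma tendsto_win_ee (hfin : ∀ K i, IsOfFinAddOrder (a K i))
    {θ : (ι → ℤ) → UnitAddCircle} {s : ℕ} (hs : 0 < s) (hsθ : ∀ v ∈ Lam U a, s • θ v = 0)
    (hconst : ∀ᶠ K in (U : Filter ℕ), ∀ v ∈ Lam U a, dot v (a K) = θ v)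
    {t0 : ℕ} (ht0 : s.Coprime t0) (w : ι → ℤ) [Decidable (w ∈ Lam U a)] :
    Tendsto (fun K => avg (modu s (a K)) (fun t => win s t0 t * ee (t • dot w (a K)))) U
      (𝓝 (if w ∈ Lam U a then ee (t0 • θ w) / (s.totient : ℂ) else 0)) := by
  split_ifs with hw
  · apply tendsto_const_nhds.congr'
    filter_upwards [hconst] with K hK
    rw [hK w hw]
    symm
    apply avg_win_mul (modu_pos hs (hfin K)) (dvd_modu _ _) ht0
    intro t _
    have h1 : addOrderOf (θ w) ∣ s := addOrderOf_dvd_of_nsmul_eq_zero (hsθ w hw)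
    congr 1
    rw [← mod_addOrderOf_nsmul, ← mod_addOrderOf_nsmul (θ w) (t % s), Nat.mod_mod_of_dvd _ h1]
  · exact (big_of_notMem_Lam hfin hw).avg_win_tendsto (fun K => modu_pos hs (hfin K))
      (fun K => modu_smul_dot _ _ _) hs (fun K => dvd_modu _ _)

lemma nsmul_ne_zero_of_coprime {x : UnitAddCircle} (hx : x ≠ 0) {t : ℕ}
    (h : Nat.Coprime t (addOrderOf x)) : t • x ≠ 0 := by
  intro h0
  have h1 := addOrderOf_dvd_of_nsmul_eq_zero h0
  have h2 : addOrderOf x ∣ 1 := by
    have := Nat.dvd_gcd h1 (dvd_refl (addOrderOf x))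
    rwa [h] at this
  exact hx (AddMonoid.addOrderOf_eq_one_iff.mp (Nat.dvd_one.mp h2))

lemma norm_ge_of_smul_eq_zero {x : UnitAddCircle} (hx : x ≠ 0) {s : ℕ} (hs : 0 < s)
    (h : s • x = 0) : 1 / (s : ℝ) ≤ ‖x‖ := by
  have hfin : IsOfFinAddOrder x := isOfFinAddOrder_iff_nsmul_eq_zero.mpr ⟨s, hs, h⟩
  have h1 := AddCircle.le_add_order_smul_norm_of_isOfFinAddOrder hfin hx
  have h2 : addOrderOf x ≤ s := Nat.le_of_dvd hs (addOrderOf_dvd_of_nsmul_eq_zero h)
  have hs' : (0:ℝ) < s := by exact_mod_cast hs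
  rw [div_le_iff₀ hs']
  calc (1:ℝ) ≤ addOrderOf x • ‖x‖ := h1
    _ = (addOrderOf x : ℝ) * ‖x‖ := nsmul_eq_mul _ _
    _ ≤ s * ‖x‖ := by
        gcongr
    _ = ‖x‖ * s := mul_comm _ _

variable (hT : ∀ K, IsTate (a K)) {θ : (ι → ℤ) → UnitAddCircle} {s : ℕ}
  (hs : 0 < s) (hsθ : ∀ v ∈ Lam U a, s • θ v = 0)
  (hconst : ∀ᶠ K in (U : Filter ℕ), ∀ v ∈ Lam U a, dot v (a K) = θ v)

include hT in
omit [DecidableEq ι] in
lemma sum_avg_eq_zero (K : ℕ) (W : ℕ → ℂ) (y : UnitAddCircle) :
    ∑ i, avg (modu s (a K)) (fun t => W t * ((saw (t • a K i) : ℂ) * ee (-(t • y)))) = 0 := by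
  rw [← avg_sum]
  have : avg (modu s (a K)) (fun t => ∑ i, W t * ((saw (t • a K i) : ℂ) * ee (-(t • y)))) =
      avg (modu s (a K)) (fun _ => 0) := by
    apply avg_congr
    intro t ht
    rw [← Finset.mul_sum, ← Finset.sum_mul, ← Complex.ofReal_sum, (hT K).sum_saw]
    · simp
    · intro i
      exact (Nat.Coprime.coprime_dvd_left (addOrderOf_dvd_modu s (a K) i) ht).symm
  rw [this]
  simp [avg]

include hT hs hsθ hconst in
/-- The fundamental identity, for `v ∉ Λ`. -/
theorem identity_of_notMem {v : ι → ℤ} (hv : v ∉ Lam U a) {κ : ι → ℤ}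
    (hκ : ∀ i, (∃ k : ℤ, k • bv i - v ∈ Lam U a) → κ i • bv i - v ∈ Lam U a)
    (S : Finset ι) (hS : ∀ i, i ∈ S ↔ κ i • bv i - v ∈ Lam U a) :
    ∑ i ∈ S, (1 / (κ i : ℂ)) * ee (θ (κ i • bv i - v)) = 0 := by
  classical
  have hfin : ∀ K i, IsOfFinAddOrder (a K i) := fun K => (hT K).fin
  have hcop : s.Coprime 1 := Nat.coprime_one_right s
  have hpi : (2 * Real.pi * Complex.I : ℂ) ≠ 0 := by
    simp [Real.pi_ne_zero, Complex.I_ne_zero]
  have hφ : (s.totient : ℂ) ≠ 0 := by exact_mod_cast (Nat.totient_pos.mpr hs).ne'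
  set ρ : ι → ℂ := fun i =>
    if κ i • bv i - v ∈ Lam U a then ee (1 • θ (κ i • bv i - v)) / (s.totient : ℂ) else 0 with hρ
  have key : ∀ i, Tendsto (fun K => avg (modu s (a K)) (fun t => win s 1 t *
      ((saw (t • a K i) : ℂ) * ee (-(t • dot v (a K)))))) U
      (𝓝 (ρ i * (-1 / (2 * Real.pi * Complex.I * κ i)))) := by
    intro i
    by_cases hi : bv i ∈ Lam U a
    · -- constant coordinate
      have hnm : κ i • bv i - v ∉ Lam U a := by
        intro h
        apply hv
        have := (Lam U a).sub_mem ((Lam U a).zsmul_mem hi (κ i)) h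
        simpa using this
      have hnk : ∀ k : ℤ, k • bv i - v ∉ Lam U a := by
        intro k h
        exact hnm (hκ i ⟨k, h⟩)
      have h0 : ρ i = 0 := by simp only [hρ]; rw [if_neg hnm]
      rw [h0, zero_mul]
      have hs' : (0:ℝ) < 1 / (s:ℝ) := by positivity
      set g : C(UnitAddCircle, ℂ) :=
        ⟨fun x => (tsaw (1 / (s:ℝ)) x : ℂ), Complex.continuous_ofReal.comp (continuous_tsaw hs')⟩
        with hg
      have h1 := tendsto_avg_cont (l := U) (m := fun K => modu s (a K)) (x := fun K => a K i)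
        (y := fun K => dot v (a K)) (W := win s 1) (norm_win_le s 1) (k0 := 0) (ρ := 0) (by
          intro k
          have h2 := tendsto_win_ee hfin hs hsθ hconst hcop (k • bv i - v)
          rw [if_neg (hnk k)] at h2
          simp only [ite_self]
          refine h2.congr fun K => ?_
          rw [dot_sub, dot_smul, dot_bv]) g
      rw [zero_mul] at h1
      refine h1.congr' ?_
      filter_upwards [hconst] with K hK
      apply avg_congr
      intro t ht
      have hai : a K i = θ (bv i) := by rw [← hK _ hi, dot_bv]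
      have hne : t • a K i ≠ 0 := nsmul_ne_zero_of_coprime ((hT K).ne_zero i)
        (Nat.Coprime.coprime_dvd_left (addOrderOf_dvd_modu s (a K) i) ht).symm
      have h3 : s • (t • a K i) = 0 := by
        rw [smul_comm, hai, hsθ _ hi, smul_zero]
      have h4 := norm_ge_of_smul_eq_zero hne hs h3
      simp only [hg, ContinuousMap.coe_mk]
      rw [tsaw_eq_saw hs' h4]
    · have hu : ∀ k : ℤ, k • bv i - v ∈ Lam U a → k = κ i := by
        intro k hk
        by_contra hne
        apply hi
        apply mem_Lam_of_smul_mem (sub_ne_zero.mpr hne)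
        have := (Lam U a).sub_mem hk (hκ i ⟨k, hk⟩)
        have e : k • bv i - v - (κ i • bv i - v) = (k - κ i) • bv i := by
          rw [sub_smul]; abel
        rwa [e] at this
      apply tendsto_avg_saw (l := U) (m := fun K => modu s (a K)) (x := fun K => a K i)
        (y := fun K => dot v (a K)) (W := win s 1) (norm_win_le s 1) (k0 := κ i) (ρ := ρ i)
      · intro k
        have h2 := tendsto_win_ee hfin hs hsθ hconst hcop (k • bv i - v)
        have h3 : (if k • bv i - v ∈ Lam U a then
            ee (1 • θ (k • bv i - v)) / (s.totient : ℂ) else 0) = if k = κ i then ρ i else 0 := by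
          by_cases hk : k = κ i
          · rw [if_pos hk, hk]
          · rw [if_neg hk, if_neg (fun h => hk (hu k h))]
        rw [h3] at h2
        refine h2.congr fun K => ?_
        rw [dot_sub, dot_smul, dot_bv]
      · intro k hk
        have h4 : k • bv i ∉ Lam U a := fun h => hi (mem_Lam_of_smul_mem hk h)
        have h5 := (big_of_notMem_Lam hfin h4).avg_tendsto (fun K => modu_pos hs (hfin K))
          (fun K => modu_smul_dot s _ _)
        refine h5.congr fun K => ?_
        rw [dot_smul, dot_bv]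
      · exact fun K => modu_pos hs (hfin K)
  have hsum := tendsto_finsetSum Finset.univ (fun i _ => key i)
  have h0 : ∑ i, ρ i * (-1 / (2 * Real.pi * Complex.I * κ i)) = 0 := by
    have h1 : (fun K => ∑ i, avg (modu s (a K)) (fun t => win s 1 t *
      ((saw (t • a K i) : ℂ) * ee (-(t • dot v (a K)))))) = fun _ => 0 := by
      ext K
      exact sum_avg_eq_zero hT K _ _
    rw [h1] at hsum
    exact tendsto_nhds_unique hsum tendsto_const_nhds
  have h1 : ∑ i, ρ i * (-1 / (2 * Real.pi * Complex.I * κ i)) =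
      (-1 / (2 * Real.pi * Complex.I * s.totient)) *
        ∑ i ∈ S, (1 / (κ i : ℂ)) * ee (θ (κ i • bv i - v)) := by
    rw [Finset.mul_sum, ← Finset.sum_subset (Finset.subset_univ S)]
    · apply Finset.sum_congr rfl
      intro i hi
      simp only [hρ]
      rw [if_pos ((hS i).mp hi), one_smul]
      rw [div_mul_div_comm]
      simp only [mul_neg, mul_one, neg_mul, div_eq_mul_inv, mul_inv]
      ring
    · intro i _ hi
      simp only [hρ]
      rw [if_neg (fun h => hi ((hS i).mpr h)), zero_mul]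
  rw [h1, mul_eq_zero] at h0
  rcases h0 with h0 | h0
  · exfalso
    rw [div_eq_zero_iff] at h0
    rcases h0 with h0 | h0
    · norm_num at h0
    · exact mul_ne_zero hpi hφ h0
  · exact h0

include hT hs hsθ hconst in
/-- The coordinates of bounded order satisfy the Tate relation. -/
theorem identity_const {t0 : ℕ} (ht0 : s.Coprime t0) (S : Finset ι)
    (hS : ∀ i, i ∈ S ↔ bv i ∈ Lam U a) :
    ∑ i ∈ S, saw (t0 • θ (bv i)) = 0 := by
  classical
  have hfin : ∀ K i, IsOfFinAddOrder (a K i) := fun K => (hT K).fin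
  have hφ : (s.totient : ℂ) ≠ 0 := by exact_mod_cast (Nat.totient_pos.mpr hs).ne'
  have key : ∀ i, Tendsto (fun K => avg (modu s (a K)) (fun t => win s t0 t *
      ((saw (t • a K i) : ℂ) * ee (-(t • (0 : UnitAddCircle)))))) U
      (𝓝 (if i ∈ S then (saw (t0 • θ (bv i)) : ℂ) / (s.totient : ℂ) else 0)) := by
    intro i
    by_cases hi : bv i ∈ Lam U a
    · rw [if_pos ((hS i).mpr hi)]
      apply tendsto_const_nhds.congr'
      filter_upwards [hconst] with K hK
      have hai : a K i = θ (bv i) := by rw [← hK _ hi, dot_bv]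
      rw [hai]
      symm
      have h1 := avg_win_mul (f := fun t => (saw (t • θ (bv i)) : ℂ) *
        ee (-(t • (0 : UnitAddCircle)))) (modu_pos hs (hfin K)) (dvd_modu s (a K)) ht0 (by
          intro t _
          have h1 : addOrderOf (θ (bv i)) ∣ s := addOrderOf_dvd_of_nsmul_eq_zero (hsθ _ hi)
          rw [← mod_addOrderOf_nsmul, ← mod_addOrderOf_nsmul (θ (bv i)) (t % s),
            Nat.mod_mod_of_dvd _ h1]
          simp)
      rw [h1]
      simp
    · rw [if_neg (fun h => hi ((hS i).mp h))]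
      have h1 := tendsto_avg_saw (l := U) (m := fun K => modu s (a K)) (x := fun K => a K i)
        (y := fun K => 0) (W := win s t0) (norm_win_le s t0) (k0 := 0)
        (ρ := if (0 : ι → ℤ) ∈ Lam U a then ee (t0 • θ 0) / (s.totient : ℂ) else 0) (by
          intro k
          by_cases hk : k = 0
          · subst hk
            rw [if_pos rfl]
            have h2 := tendsto_win_ee hfin hs hsθ hconst ht0 (0 : ι → ℤ)
            refine h2.congr fun K => ?_
            simp
          · rw [if_neg hk]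
            have h4 : k • bv i ∉ Lam U a := fun h => hi (mem_Lam_of_smul_mem hk h)
            have h2 := tendsto_win_ee hfin hs hsθ hconst ht0 (k • bv i)
            rw [if_neg h4] at h2
            refine h2.congr fun K => ?_
            rw [dot_smul, dot_bv, sub_zero])
        (by
          intro k hk
          have h4 : k • bv i ∉ Lam U a := fun h => hi (mem_Lam_of_smul_mem hk h)
          have h5 := (big_of_notMem_Lam hfin h4).avg_tendsto (fun K => modu_pos hs (hfin K))
            (fun K => modu_smul_dot s _ _)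
          refine h5.congr fun K => ?_
          rw [dot_smul, dot_bv])
        (fun K => modu_pos hs (hfin K))
      simpa using h1
  have hsum := tendsto_finsetSum Finset.univ (fun i _ => key i)
  have h1 : (fun K => ∑ i, avg (modu s (a K)) (fun t => win s t0 t *
      ((saw (t • a K i) : ℂ) * ee (-(t • (0 : UnitAddCircle)))))) = fun _ => 0 := by
    ext K
    exact sum_avg_eq_zero hT K _ _
  rw [h1] at hsum
  have h0 := tendsto_nhds_unique hsum tendsto_const_nhds
  rw [Finset.sum_ite_mem, Finset.univ_inter, ← Finset.sum_div, div_eq_zero_iff] at h0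
  rcases h0 with h0 | h0
  · rw [← Complex.ofReal_sum] at h0
    exact_mod_cast h0
  · exact absurd h0 hφ

end Pool.Agent.Lib.MP_938ce2_ag_H7
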