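import Pool.Agent.Lib.MP_938ce2_ag_H7.Avg

/-!
# Limits of twisted averages
-/

open Filter Topology MeasureTheory Finset AddCircle

namespace Pool.Agent.Lib.MP_938ce2_ag_H7

/-- the order of `z K` tends to infinity -/
def Big (l : Filter ℕ) (z : ℕ → UnitAddCircle) : Prop :=
  Tendsto (fun K => addOrderOf (z K)) l atTop

lemma Big.avg_tendsto {l : Filter ℕ} {m : ℕ → ℕ} (hm : ∀ K, 0 < m K) {z : ℕ → UnitAddCircle}
    (hz : ∀ K, m K • z K = 0) (h : Big l z) :
    Tendsto (fun K => avg (m K) (fun t => ee (t • z K))) l (𝓝 0) := by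
  rw [Metric.tendsto_nhds]
  intro ε hε
  obtain ⟨B, hB⟩ := exists_nat_one_div_lt hε
  have h1 := h.eventually (eventually_gt_atTop ((2 * B).factorial))
  filter_upwards [h1] with K hK
  rw [dist_zero_right]
  have hord : 0 < addOrderOf (z K) := lt_of_le_of_lt (Nat.zero_le _) hK
  have h2 : B + 1 ≤ (addOrderOf (z K)).totient := by
    by_contra hcon
    push Not at hcon
    have := dvd_factorial_of_totient_le hord (Nat.lt_succ_iff.mp hcon)
    have := Nat.le_of_dvd (Nat.factorial_pos _) this
    omega
  calc ‖avg (m K) (fun t => ee (t • z K))‖ ≤ 1 / ((addOrderOf (z K)).totient : ℝ) :=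
        norm_avg_ee_le (hm K) (hz K)
    _ ≤ 1 / ((B : ℝ) + 1) := by
        apply one_div_le_one_div_of_le (by positivity)
        exact_mod_cast h2
    _ < ε := hB

lemma norm_fourierCoeff_le (f : UnitAddCircle → ℂ) (k : ℤ) :
    ‖fourierCoeff f k‖ ≤ ∫ x : UnitAddCircle, ‖f x‖ ∂haarAddCircle := by
  unfold fourierCoeff
  refine (norm_integral_le_integral_norm _).trans (le_of_eq ?_)
  congr 1
  ext x
  rw [norm_smul, fourier_apply, Circle.norm_coe, one_mul]

lemma integrable_cont (g : C(UnitAddCircle, ℂ)) :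
    Integrable (fun x => g x) (haarAddCircle (T := (1:ℝ))) :=
  g.continuous.integrable_of_hasCompactSupport
    (HasCompactSupport.of_compactSpace _)

lemma fourierCoeff_sub' {f g : UnitAddCircle → ℂ} (hf : Integrable f haarAddCircle)
    (hg : Integrable g haarAddCircle) (k : ℤ) :
    fourierCoeff (fun x => f x - g x) k = fourierCoeff f k - fourierCoeff g k := by
  unfold fourierCoeff
  rw [← integral_sub (hf.fourier_smul _) (hg.fourier_smul _)]
  congr 1
  ext x
  rw [smul_sub]

lemma norm_fourierCoeff_cont_sub_le (f g : C(UnitAddCircle, ℂ)) (k : ℤ) :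
    ‖fourierCoeff f k - fourierCoeff g k‖ ≤ ‖f - g‖ := by
  have h := fourierCoeff_sub' (integrable_cont f) (integrable_cont g) k
  rw [← h]
  refine (norm_fourierCoeff_le _ k).trans ?_
  calc ∫ x : UnitAddCircle, ‖f x - g x‖ ∂haarAddCircle
      ≤ ∫ x : UnitAddCircle, ‖f - g‖ ∂haarAddCircle := by
        apply integral_mono_of_nonneg
        · exact Eventually.of_forall fun x => norm_nonneg _
        · exact integrable_const _
        · exact Eventually.of_forall fun x => (f - g).norm_coe_le_norm x
    _ = ‖f - g‖ := by simp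

/-- Twisted averages of a continuous function. -/
theorem tendsto_avg_cont {l : Filter ℕ} {m : ℕ → ℕ} {x y : ℕ → UnitAddCircle} {W : ℕ → ℂ}
    (hW : ∀ t, ‖W t‖ ≤ 1) {k0 : ℤ} {ρ : ℂ}
    (H : ∀ k : ℤ, Tendsto (fun K => avg (m K) (fun t => W t * ee (t • (k • x K - y K)))) l
      (𝓝 (if k = k0 then ρ else 0))) (g : C(UnitAddCircle, ℂ)) :
    Tendsto (fun K => avg (m K) (fun t => W t * (g (t • x K) * ee (-(t • y K))))) l
      (𝓝 (ρ * fourierCoeff g k0)) := by
  -- the span of the monomials
  have hspan : ∀ p ∈ Submodule.span ℂ (Set.range (@fourier (1:ℝ))),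
      Tendsto (fun K => avg (m K) (fun t => W t * (p (t • x K) * ee (-(t • y K))))) l
        (𝓝 (ρ * fourierCoeff p k0)) := by
    intro p hp
    induction hp using Submodule.span_induction with
    | mem p hp =>
      obtain ⟨k, rfl⟩ := hp
      have h1 := H k
      rw [fourierCoeff_fourier]
      have h2 : ρ * (Pi.single k 1 : ℤ → ℂ) k0 = if k = k0 then ρ else 0 := by
        by_cases h : k = k0
        · subst h; simp
        · rw [if_neg h, Pi.single_eq_of_ne (Ne.symm h), mul_zero]
      rw [h2]
      refine h1.congr fun K => ?_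
      apply avg_congr
      intro t _
      rw [fourier_eq_ee, ← ee_add]
      congr 2
      rw [smul_sub, smul_comm, sub_eq_add_neg]
    | zero =>
      simp only [ContinuousMap.coe_zero, Pi.zero_apply, zero_mul, mul_zero]
      have h0 : fourierCoeff (0 : UnitAddCircle → ℂ) k0 = 0 := by
        simp [fourierCoeff]
      rw [h0, mul_zero]
      have : (fun K => avg (m K) fun _ => (0:ℂ)) = fun _ => 0 := by
        ext K; simp [avg]
      rw [this]
      exact tendsto_const_nhds
    | add p q _ _ hp hq =>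
      have h1 := hp.add hq
      have h2 : fourierCoeff (⇑(p + q)) k0 = fourierCoeff p k0 + fourierCoeff q k0 := by
        rw [ContinuousMap.coe_add, fourierCoeff.add (integrable_cont p) (integrable_cont q)]
        rfl
      rw [h2, mul_add]
      refine h1.congr fun K => ?_
      rw [← avg_add]
      apply avg_congr
      intro t _
      simp only [ContinuousMap.add_apply]
      ring
    | smul c p _ hp =>
      have h1 := hp.const_mul c
      have h2 : fourierCoeff (⇑(c • p)) k0 = c * fourierCoeff p k0 := by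
        rw [ContinuousMap.coe_smul]
        exact fourierCoeff.const_smul _ c k0
      rw [h2]
      have h3 : ρ * (c * fourierCoeff p k0) = c * (ρ * fourierCoeff p k0) := by ring
      rw [h3]
      refine h1.congr fun K => ?_
      rw [← avg_mul_left]
      apply avg_congr
      intro t _
      simp only [ContinuousMap.smul_apply, smul_eq_mul]
      ring
  -- general case
  rw [Metric.tendsto_nhds]
  intro ε hε
  set δ : ℝ := ε / (2 * (2 + ‖ρ‖)) with hδ
  have hρ : 0 < 2 * (2 + ‖ρ‖) := by positivity
  have hδ0 : 0 < δ := div_pos hε hρ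
  have hmem : g ∈ (Submodule.span ℂ (Set.range (@fourier (1:ℝ)))).topologicalClosure := by
    rw [span_fourier_closure_eq_top]; trivial
  rw [← SetLike.mem_coe, Submodule.topologicalClosure_coe, Metric.mem_closure_iff] at hmem
  obtain ⟨p, hp, hgp⟩ := hmem δ hδ0
  have h1 := (Metric.tendsto_nhds.mp (hspan p hp)) δ hδ0
  filter_upwards [h1] with K hK
  rw [dist_eq_norm] at hK hgp ⊢
  have h2 : ‖avg (m K) (fun t => W t * (g (t • x K) * ee (-(t • y K)))) -
      avg (m K) (fun t => W t * (p (t • x K) * ee (-(t • y K))))‖ ≤ δ := by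
    rw [← avg_sub]
    apply norm_avg_le hδ0.le
    intro t _
    rw [← mul_sub, ← sub_mul, norm_mul, norm_mul, norm_ee, mul_one]
    calc ‖W t‖ * ‖g (t • x K) - p (t • x K)‖ ≤ 1 * ‖g - p‖ := by
          gcongr
          · exact hW t
          · exact (g - p).norm_coe_le_norm _
      _ ≤ δ := by rw [one_mul]; exact hgp.le
  have h3 : ‖ρ * fourierCoeff p k0 - ρ * fourierCoeff g k0‖ ≤ ‖ρ‖ * δ := by
    rw [← mul_sub, norm_mul]
    gcongr
    refine (norm_fourierCoeff_cont_sub_le p g k0).trans ?_
    rw [norm_sub_rev]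
    exact hgp.le
  calc ‖avg (m K) (fun t => W t * (g (t • x K) * ee (-(t • y K)))) - ρ * fourierCoeff g k0‖
      = ‖(avg (m K) (fun t => W t * (g (t • x K) * ee (-(t • y K)))) -
          avg (m K) (fun t => W t * (p (t • x K) * ee (-(t • y K))))) +
        (avg (m K) (fun t => W t * (p (t • x K) * ee (-(t • y K)))) - ρ * fourierCoeff p k0) +
        (ρ * fourierCoeff p k0 - ρ * fourierCoeff g k0)‖ := by congr 1; ring
    _ ≤ δ + δ + ‖ρ‖ * δ := by
        refine (norm_add₃_le).trans ?_
        gcongr
    _ = (2 + ‖ρ‖) * δ := by ring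
    _ = ε / 2 := by rw [hδ]; field_simp
    _ < ε := by linarith

/-! ### the sawtooth function -/

/-- the representative in `[0,1)` -/
noncomputable def fr (x : UnitAddCircle) : ℝ := (AddCircle.equivIco 1 0 x : ℝ)

/-- the sawtooth function -/
noncomputable def saw (x : UnitAddCircle) : ℝ := fr x - 1 / 2

lemma fr_nonneg (x : UnitAddCircle) : 0 ≤ fr x := (AddCircle.equivIco 1 0 x).2.1

lemma fr_lt_one (x : UnitAddCircle) : fr x < 1 := by
  have := (AddCircle.equivIco 1 0 x).2.2
  unfold fr
  linarith

lemma coe_fr (x : UnitAddCircle) : ((fr x : ℝ) : UnitAddCircle) = x := AddCircle.coe_equivIco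

lemma fr_coe_of_mem {r : ℝ} (h0 : 0 ≤ r) (h1 : r < 1) : fr (r : UnitAddCircle) = r := by
  unfold fr
  rw [AddCircle.equivIco_coe_eq (by constructor <;> simpa)]

lemma fr_coe (r : ℝ) : fr (r : UnitAddCircle) = Int.fract r := by
  conv_lhs => rw [← AddCircle.coe_fract r]
  exact fr_coe_of_mem (Int.fract_nonneg r) (Int.fract_lt_one r)

lemma fr_zero : fr 0 = 0 := by
  have := fr_coe_of_mem (le_refl (0:ℝ)) one_pos
  simpa using this

lemma fr_eq_zero_iff {x : UnitAddCircle} : fr x = 0 ↔ x = 0 := by
  constructor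
  · intro h
    rw [← coe_fr x, h]; simp
  · rintro rfl; exact fr_zero

lemma fr_neg {x : UnitAddCircle} (hx : x ≠ 0) : fr (-x) = 1 - fr x := by
  have h0 : 0 < fr x := lt_of_le_of_ne (fr_nonneg x) (fun h => hx (fr_eq_zero_iff.mp h.symm))
  have h1 := fr_lt_one x
  have h2 : ((1 - fr x : ℝ) : UnitAddCircle) = -x := by
    rw [AddCircle.coe_sub, coe_fr, AddCircle.coe_period, zero_sub]
  rw [← h2]
  exact fr_coe_of_mem (by linarith) (by linarith)

lemma saw_neg {x : UnitAddCircle} (hx : x ≠ 0) : saw (-x) = - saw x := by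
  unfold saw; rw [fr_neg hx]; ring

lemma abs_saw_le (x : UnitAddCircle) : |saw x| ≤ 1 / 2 := by
  rw [abs_le]; unfold saw
  constructor <;> linarith [fr_nonneg x, fr_lt_one x]

lemma measurable_fr : Measurable fr := by
  unfold fr
  exact measurable_subtype_coe.comp (AddCircle.measurableEquivIco (1:ℝ) 0).measurable

lemma measurable_saw : Measurable saw := measurable_fr.sub_const _

lemma integrable_saw : Integrable (fun x => (saw x : ℂ)) (haarAddCircle (T := (1:ℝ))) := by
  apply Integrable.mono' (integrable_const (1/2 : ℝ))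
  · exact (Complex.measurable_ofReal.comp measurable_saw).aestronglyMeasurable
  · refine Eventually.of_forall fun x => ?_
    rw [Complex.norm_real, Real.norm_eq_abs]
    exact abs_saw_le x

lemma fourierCoeff_saw (k : ℤ) :
    fourierCoeff (fun x : UnitAddCircle => (saw x : ℂ)) k = -1 / (2 * Real.pi * Complex.I * k) := by
  have h := fourierCoeff_bernoulli_eq (k := 1) one_ne_zero k
  have h2 : ((↑) ∘ periodizedBernoulli 1 : UnitAddCircle → ℂ) = fun x => (saw x : ℂ) := by
    ext x
    simp only [Function.comp_apply, periodizedBernoulli, AddCircle.liftIco, Set.domRestrict_apply,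
      bernoulliFun_one]
    rfl
  rw [h2] at h
  rw [h]
  simp

/-- tent function -/
noncomputable def tent (δ : ℝ) (x : UnitAddCircle) : ℝ := 1 - min 1 (‖x‖ / δ)

lemma tent_nonneg (δ : ℝ) (x : UnitAddCircle) : 0 ≤ tent δ x := by
  unfold tent; linarith [min_le_left (1:ℝ) (‖x‖ / δ)]

lemma tent_le_one {δ : ℝ} (hδ : 0 < δ) (x : UnitAddCircle) : tent δ x ≤ 1 := by
  unfold tent
  have : 0 ≤ min 1 (‖x‖ / δ) := le_min zero_le_one (by positivity)
  linarith

lemma continuous_tent (δ : ℝ) : Continuous (tent δ) := by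
  unfold tent
  fun_prop

lemma integral_tent_le {δ : ℝ} (hδ : 0 < δ) :
    ∫ x : UnitAddCircle, tent δ x ∂haarAddCircle ≤ 2 * δ := by
  have hvol : (haarAddCircle (T := (1:ℝ))) = volume := by
    rw [AddCircle.volume_eq_smul_haarAddCircle]; simp
  rw [hvol]
  calc ∫ x : UnitAddCircle, tent δ x
      ≤ ∫ x : UnitAddCircle, (Metric.closedBall (0 : UnitAddCircle) δ).indicator 1 x := by
        apply integral_mono_of_nonneg
        · exact Eventually.of_forall (tent_nonneg δ)
        · exact (integrable_indicator_iff Metric.isClosed_closedBall.measurableSet).mpr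
            (integrable_const _).integrableOn
        · refine Eventually.of_forall fun x => ?_
          by_cases hx : x ∈ Metric.closedBall (0 : UnitAddCircle) δ
          · simp only [Set.indicator_of_mem hx, Pi.one_apply]
            exact tent_le_one hδ x
          · simp only [Set.indicator_of_notMem hx]
            rw [mem_closedBall_zero_iff, not_le] at hx
            unfold tent
            rw [min_eq_left]
            · simp
            · rw [le_div_iff₀ hδ]; linarith
    _ = (volume (Metric.closedBall (0 : UnitAddCircle) δ)).toReal := by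
        rw [integral_indicator_one Metric.isClosed_closedBall.measurableSet]
        rfl
    _ ≤ 2 * δ := by
        rw [AddCircle.volume_closedBall]
        rw [ENNReal.toReal_ofReal (le_min zero_le_one (by positivity))]
        exact min_le_right _ _

/-- continuous truncation of the sawtooth function -/
noncomputable def tsaw (δ : ℝ) (x : UnitAddCircle) : ℝ := saw x * min 1 (‖x‖ / δ)

lemma continuousAt_fr {x : UnitAddCircle} (hx : x ≠ 0) : ContinuousAt fr x := by
  unfold fr
  exact continuous_subtype_val.continuousAt.comp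
    (AddCircle.continuousAt_equivIco (1:ℝ) 0 (by simpa using hx))

lemma continuous_tsaw {δ : ℝ} (hδ : 0 < δ) : Continuous (tsaw δ) := by
  rw [continuous_iff_continuousAt]
  intro x
  by_cases hx : x = 0
  · subst hx
    have h0 : tsaw δ 0 = 0 := by simp [tsaw]
    rw [ContinuousAt, h0]
    apply squeeze_zero_norm (a := fun x : UnitAddCircle => ‖x‖ / δ)
    · intro x
      unfold tsaw
      rw [norm_mul, Real.norm_eq_abs, Real.norm_eq_abs]
      have h1 := abs_saw_le x
      have h2 : |min 1 (‖x‖ / δ)| ≤ ‖x‖ / δ := by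
        rw [abs_of_nonneg (le_min zero_le_one (by positivity))]
        exact min_le_right _ _
      have h3 : 0 ≤ |min 1 (‖x‖ / δ)| := abs_nonneg _
      have h4 : 0 ≤ |saw x| := abs_nonneg _
      nlinarith
    · have h : ContinuousAt (fun x : UnitAddCircle => ‖x‖ / δ) 0 := by fun_prop
      rw [ContinuousAt] at h
      simpa using h
  · unfold tsaw saw
    apply ContinuousAt.mul
    · exact (continuousAt_fr hx).sub continuousAt_const
    · fun_prop

lemma abs_saw_sub_tsaw_le {δ : ℝ} (_hδ : 0 < δ) (x : UnitAddCircle) :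
    |saw x - tsaw δ x| ≤ tent δ x := by
  have h : saw x - tsaw δ x = saw x * tent δ x := by unfold tsaw tent; ring
  rw [h, abs_mul, abs_of_nonneg (tent_nonneg δ x)]
  have h1 := abs_saw_le x
  have h2 := tent_nonneg δ x
  nlinarith

lemma tsaw_eq_saw {δ : ℝ} (hδ : 0 < δ) {x : UnitAddCircle} (hx : δ ≤ ‖x‖) : tsaw δ x = saw x := by
  unfold tsaw
  rw [min_eq_left, mul_one]
  rwa [le_div_iff₀ hδ, one_mul]

/-- Twisted averages of the sawtooth function. -/
theorem tendsto_avg_saw {l : Filter ℕ} {m : ℕ → ℕ} {x y : ℕ → UnitAddCircle} {W : ℕ → ℂ}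
    (hW : ∀ t, ‖W t‖ ≤ 1) {k0 : ℤ} {ρ : ℂ}
    (H : ∀ k : ℤ, Tendsto (fun K => avg (m K) (fun t => W t * ee (t • (k • x K - y K)))) l
      (𝓝 (if k = k0 then ρ else 0)))
    (Hx : ∀ k : ℤ, k ≠ 0 → Tendsto (fun K => avg (m K) (fun t => ee (t • (k • x K)))) l (𝓝 0))
    (hm : ∀ K, 0 < m K) :
    Tendsto (fun K => avg (m K) (fun t => W t * ((saw (t • x K) : ℂ) * ee (-(t • y K))))) l
      (𝓝 (ρ * (-1 / (2 * Real.pi * Complex.I * k0)))) := by
  rw [Metric.tendsto_nhds]
  intro ε hε
  set δ : ℝ := ε / (8 * (1 + ‖ρ‖)) with hδ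
  have hρ : 0 < 8 * (1 + ‖ρ‖) := by positivity
  have hδ0 : 0 < δ := div_pos hε hρ
  set g : C(UnitAddCircle, ℂ) :=
    ⟨fun x => (tsaw δ x : ℂ), Complex.continuous_ofReal.comp (continuous_tsaw hδ0)⟩ with hg
  set h : C(UnitAddCircle, ℂ) :=
    ⟨fun x => (tent δ x : ℂ), Complex.continuous_ofReal.comp (continuous_tent δ)⟩ with hh
  -- the averages of the tent function
  have hone : ∀ K, avg (m K) (fun _ => (1:ℂ)) = 1 := by
    intro K
    unfold avg
    rw [Finset.sum_const, card_cop, nsmul_eq_mul, mul_one, div_self]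
    exact_mod_cast (Nat.totient_pos.mpr (hm K)).ne'
  have h1 := tendsto_avg_cont (l := l) (m := m) (x := x) (y := fun _ => 0) (W := fun _ => 1)
    (by simp) (k0 := 0) (ρ := 1) (by
      intro k
      by_cases hk : k = 0
      · subst hk
        simp only [zero_smul, sub_zero, smul_zero, ee_zero, mul_one, if_true, hone]
        exact tendsto_const_nhds
      · rw [if_neg hk]
        simpa using Hx k hk) h
  have h2 : fourierCoeff h 0 = ((∫ x : UnitAddCircle, tent δ x ∂haarAddCircle : ℝ) : ℂ) := by
    unfold fourierCoeff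
    simp only [neg_zero, fourier_zero, one_smul, hh, ContinuousMap.coe_mk]
    exact integral_ofReal
  have h3 : ‖(1:ℂ) * fourierCoeff h 0‖ < 3 * δ := by
    rw [one_mul, h2, Complex.norm_real, Real.norm_eq_abs, abs_of_nonneg]
    · have := integral_tent_le hδ0
      linarith
    · exact integral_nonneg (tent_nonneg δ)
  have h4 := (h1.norm).eventually (gt_mem_nhds h3)
  have h5 := (Metric.tendsto_nhds.mp (tendsto_avg_cont hW H g)) δ hδ0
  filter_upwards [h4, h5] with K hK4 hK5
  rw [dist_eq_norm] at hK5 ⊢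
  have h6 : ‖avg (m K) (fun t => W t * ((saw (t • x K) : ℂ) * ee (-(t • y K)))) -
      avg (m K) (fun t => W t * (g (t • x K) * ee (-(t • y K))))‖ ≤ 3 * δ := by
    rw [← avg_sub]
    refine (norm_avg_le_avg (g := fun t => tent δ (t • x K)) ?_).trans ?_
    · intro t _
      rw [← mul_sub, ← sub_mul, norm_mul, norm_mul, norm_ee, mul_one]
      have e1 : ‖(saw (t • x K) : ℂ) - g (t • x K)‖ ≤ tent δ (t • x K) := by
        simp only [hg, ContinuousMap.coe_mk]
        rw [← Complex.ofReal_sub, Complex.norm_real, Real.norm_eq_abs]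
        exact abs_saw_sub_tsaw_le hδ0 _
      calc ‖W t‖ * ‖(saw (t • x K) : ℂ) - g (t • x K)‖ ≤ 1 * tent δ (t • x K) := by
            gcongr
            exact hW t
        _ = _ := one_mul _
    · have e2 : avg (m K) (fun t => ((tent δ (t • x K) : ℝ) : ℂ)) =
          avg (m K) (fun t => (1:ℂ) * (h (t • x K) * ee (-(t • (0 : UnitAddCircle))))) := by
        apply avg_congr
        intro t _
        simp [hh]
      rw [e2]
      exact hK4.le
  have h7 : ‖ρ * fourierCoeff g k0 - ρ * (-1 / (2 * Real.pi * Complex.I * k0))‖ ≤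
      ‖ρ‖ * (2 * δ) := by
    rw [← fourierCoeff_saw, ← mul_sub, norm_mul]
    gcongr
    rw [← fourierCoeff_sub' (integrable_cont g) integrable_saw]
    refine (norm_fourierCoeff_le _ _).trans ?_
    refine le_trans ?_ (integral_tent_le hδ0)
    apply integral_mono_of_nonneg
    · exact Eventually.of_forall fun x => norm_nonneg _
    · have := integrable_cont h
      have h8 := this.re
      simpa [hh] using h8
    · refine Eventually.of_forall fun x => ?_
      simp only [hg, ContinuousMap.coe_mk]
      rw [← Complex.ofReal_sub, Complex.norm_real, Real.norm_eq_abs, abs_sub_comm]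
      exact abs_saw_sub_tsaw_le hδ0 _
  calc ‖avg (m K) (fun t => W t * ((saw (t • x K) : ℂ) * ee (-(t • y K)))) -
        ρ * (-1 / (2 * Real.pi * Complex.I * k0))‖
      = ‖(avg (m K) (fun t => W t * ((saw (t • x K) : ℂ) * ee (-(t • y K)))) -
          avg (m K) (fun t => W t * (g (t • x K) * ee (-(t • y K))))) +
        (avg (m K) (fun t => W t * (g (t • x K) * ee (-(t • y K)))) - ρ * fourierCoeff g k0) +
        (ρ * fourierCoeff g k0 - ρ * (-1 / (2 * Real.pi * Complex.I * k0)))‖ := by
        congr 1; ring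
    _ ≤ 3 * δ + δ + ‖ρ‖ * (2 * δ) := by
        refine (norm_add₃_le).trans ?_
        gcongr
    _ ≤ 4 * (1 + ‖ρ‖) * δ := by nlinarith [norm_nonneg ρ]
    _ = ε / 2 := by rw [hδ]; field_simp; ring
    _ < ε := by linarith

end Pool.Agent.Lib.MP_938ce2_ag_H7
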