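import Pool.Agent.Lib.MP_938ce2_ag_H7.Reduction

/-!
# One degree in each dimension
-/

open Finset

namespace Pool.Agent.Lib.MP_938ce2_ag_H7

lemma sum_append_pair {β : Type*} [AddCommMonoid β] {n k : ℕ} (b : Fin n → UnitAddCircle)
    (g : UnitAddCircle → β) :
    ∑ j : Fin (n + (k + k)), g (Fin.append b (fun _ => pt 2) j) =
      ∑ j, g (b j) + (k + k) • g (pt 2) := by
  rw [Fin.sum_univ_add]
  simp

/-- a family may be lengthened by an even number of halves -/
lemma pad {n k : ℕ} {b : Fin n → UnitAddCircle} (hb : IsTate b) :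
    ∃ b' : Fin (n + (k + k)) → UnitAddCircle, IsTate b' ∧
      (∀ M : ℕ, (∀ j, M • b j = 0) → ∀ j, (2 * M) • b' j = 0) ∧ fs b - fs b' ∈ Std := by
  rcases Nat.eq_zero_or_pos k with rfl | hk
  · refine ⟨b, hb, fun M hM j => ?_, ?_⟩
    · rw [mul_smul]
      have := hM j
      rw [this, smul_zero]
    · rw [sub_self]; exact Std.zero_mem
  set b' : Fin (n + (k + k)) → UnitAddCircle := Fin.append b (fun _ => pt 2) with hb'
  have hcase : ∀ j, (∃ i, b' j = b i) ∨ b' j = pt 2 := by
    intro j
    refine Fin.addCases (fun i => ?_) (fun i => ?_) j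
    · left; exact ⟨i, by simp [hb']⟩
    · right; simp [hb']
  have hpt : ∀ t : ℕ, Nat.Coprime t (addOrderOf (pt 2)) → fr (t • pt 2) = 1 / 2 := by
    intro t ht
    rw [addOrderOf_pt (by norm_num)] at ht
    have h1 : t % 2 = 1 := by
      rcases Nat.mod_two_eq_zero_or_one t with h | h
      · exfalso
        have : 2 ∣ t := Nat.dvd_of_mod_eq_zero h
        have := Nat.dvd_gcd this (dvd_refl 2)
        rw [ht] at this
        omega
      · exact h
    rw [← mod_addOrderOf_nsmul, addOrderOf_pt (by norm_num), h1, one_smul]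
    unfold pt
    rw [fr_coe_of_mem] <;> norm_num
  refine ⟨b', ⟨?_, ?_, ?_⟩, ?_, ?_⟩
  · intro j
    rcases hcase j with ⟨i, h⟩ | h
    · rw [h]; exact hb.ne_zero i
    · rw [h]; exact pt_ne_zero (by norm_num)
  · intro j
    rcases hcase j with ⟨i, h⟩ | h
    · rw [h]; exact hb.fin i
    · rw [h]; exact isOfFinAddOrder_pt (by norm_num)
  · intro t ht
    rw [hb', sum_append_pair b (fun x => fr (t • x))]
    have h1 : ∀ i, Nat.Coprime t (addOrderOf (b i)) := by
      intro i
      have := ht (Fin.castAdd (k + k) i)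
      simpa [hb'] using this
    have h2 : Nat.Coprime t (addOrderOf (pt 2)) := by
      have h0 : b' (Fin.natAdd n ⟨0, by omega⟩) = pt 2 := by
        rw [hb', Fin.append_right]
      have := ht (Fin.natAdd n ⟨0, by omega⟩)
      rwa [h0] at this
    have h3 := hb.sum_eq t h1
    rw [h3, hpt t h2]
    simp only [Fintype.card_fin, nsmul_eq_mul]
    push_cast
    ring
  · intro M hM j
    rcases hcase j with ⟨i, h⟩ | h
    · have := hM i
      rw [h, mul_smul, this, smul_zero]
    · rw [h, mul_comm, mul_smul, nsmul_pt 2 (by norm_num), smul_zero]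
  · have h1 : fs b' = fs b + k • (Finsupp.single (pt 2) 1 + Finsupp.single (pt 2) 1) := by
      unfold fs
      rw [hb', sum_append_pair b (fun x => Finsupp.single x (1:ℤ)), add_smul, smul_add]
    rw [h1]
    have := Std.neg_mem (Std.nsmul_mem two_half_mem k)
    convert this using 1
    abel

/-- **One degree in each dimension.** -/
theorem one_degree (N : ℕ) (hN : Even N) :
    ∃ M : ℕ, 0 < M ∧ ∀ a : Fin N → UnitAddCircle, IsTate a →
      ∃ b : Fin N → UnitAddCircle, IsTate b ∧ (∀ j, M • b j = 0) ∧ fs a - fs b ∈ Std := by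
  obtain ⟨M, hM, h⟩ := finite_reduction N hN
  refine ⟨2 * M, by omega, fun a ha => ?_⟩
  obtain ⟨N', b, hev, hle, hb, hMb, hmem⟩ := h a ha
  obtain ⟨k, hk⟩ : ∃ k, N = N' + (k + k) := by
    obtain ⟨c, hc⟩ := hN
    obtain ⟨d, hd⟩ := hev
    exact ⟨c - d, by omega⟩
  subst hk
  obtain ⟨b', hb', h1, h2⟩ := pad (k := k) hb
  refine ⟨b', hb', h1 M hMb, ?_⟩
  have := Std.add_mem hmem h2
  convert this using 1
  abel

end Pool.Agent.Lib.MP_938ce2_ag_H7
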