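import Pool.Agent.Lib.MP_938ce2_ag_H7.Classes

/-!
# Finite reduction
-/

open Filter Topology Finset

namespace Pool.Agent.Lib.MP_938ce2_ag_H7

/-! ### parity -/

/-- degree -/
noncomputable def deg : (UnitAddCircle →₀ ℤ) →+ ℤ :=
  Finsupp.liftAddHom fun _ => AddMonoidHom.id ℤ

@[simp] lemma deg_single (x : UnitAddCircle) (c : ℤ) : deg (Finsupp.single x c) = c := by
  simp [deg]

lemma even_deg_of_mem_Std {w : UnitAddCircle →₀ ℤ} (hw : w ∈ Std) : Even (deg w) := by
  unfold Std at hw
  induction hw using AddSubgroup.closure_induction with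
  | mem w hw =>
    rcases hw with ⟨x, _, _, rfl⟩ | ⟨p, x, hp, hp2, _, _, rfl⟩ | ⟨x, _, _, rfl⟩
    · simp
    · rw [map_add, map_sum]
      simp only [deg_single, Finset.sum_const, Finset.card_range]
      rcases hp.eq_two_or_odd' with h | h
      · exact absurd h hp2
      · obtain ⟨c, hc⟩ := h
        rw [hc]
        exact ⟨c + 1, by simp; ring⟩
    · simp only [map_add, deg_single]
      exact ⟨2, by norm_num⟩
  | zero => simp
  | add v w _ _ h1 h2 => rw [map_add]; exact h1.add h2
  | neg v _ h1 => rw [map_neg]; exact h1.neg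

lemma neg_pt_two : -pt 2 = pt 2 := by
  rw [neg_eq_iff_add_eq_zero, pt_add_self]

lemma two_half_mem : Finsupp.single (pt 2) 1 + Finsupp.single (pt 2) 1 ∈ Std := by
  apply AddSubgroup.subset_closure
  refine Or.inl ⟨pt 2, isOfFinAddOrder_pt (by norm_num), pt_ne_zero (by norm_num), ?_⟩
  rw [neg_pt_two]

lemma exists_sub_mem_Std {w : UnitAddCircle →₀ ℤ} (hw : w ∈ Std') :
    ∃ e : ℤ, w - e • Finsupp.single (pt 2) 1 ∈ Std := by
  unfold Std' at hw
  induction hw using AddSubgroup.closure_induction with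
  | mem w hw =>
    rcases Set.mem_insert_iff.mp hw with rfl | hw
    · exact ⟨1, by simp⟩
    · refine ⟨0, ?_⟩
      rw [zero_smul, sub_zero]
      exact AddSubgroup.subset_closure hw
  | zero => exact ⟨0, by simp⟩
  | add v w _ _ h1 h2 =>
    obtain ⟨e, he⟩ := h1
    obtain ⟨f, hf⟩ := h2
    refine ⟨e + f, ?_⟩
    have := Std.add_mem he hf
    convert this using 1
    module
  | neg v _ h1 =>
    obtain ⟨e, he⟩ := h1
    refine ⟨-e, ?_⟩
    have := Std.neg_mem he
    convert this using 1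
    module

lemma mem_Std_of_even {w : UnitAddCircle →₀ ℤ} (hw : w ∈ Std') (he : Even (deg w)) : w ∈ Std := by
  obtain ⟨e, h1⟩ := exists_sub_mem_Std hw
  have h2 := even_deg_of_mem_Std h1
  rw [map_sub, map_zsmul, deg_single, smul_eq_mul, mul_one] at h2
  have h3 : Even e := by
    have := he.sub h2
    simpa using this
  obtain ⟨c, hc⟩ := h3
  have h4 : e • Finsupp.single (pt 2) (1:ℤ) ∈ Std := by
    have := Std.zsmul_mem two_half_mem c
    convert this using 1
    rw [hc]; module
  have := Std.add_mem h1 h4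
  simpa using this

@[simp] lemma deg_fs {ι : Type*} [Fintype ι] (a : ι → UnitAddCircle) :
    deg (fs a) = Fintype.card ι := by
  simp [fs, map_sum]

/-! ### lifting units -/

lemma exists_coprime_lift {L s t : ℕ} (hs : 0 < s) (hL : L ∣ s) (ht : Nat.Coprime t L) :
    ∃ t0, s.Coprime t0 ∧ t0 % L = t % L := by
  have hL0 : 0 < L := Nat.pos_of_dvd_of_pos hL hs
  have : NeZero s := ⟨hs.ne'⟩
  have : NeZero L := ⟨hL0.ne'⟩
  obtain ⟨v, hv⟩ := ZMod.unitsMap_surjective hL (ZMod.unitOfCoprime t ht)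
  refine ⟨(v : ZMod s).val, (ZMod.val_coe_unit_coprime v).symm, ?_⟩
  have h1 : ((ZMod.unitsMap hL v : (ZMod L)ˣ) : ZMod L).val = t % L := by
    rw [hv, ZMod.coe_unitOfCoprime, ZMod.val_natCast]
  rw [← h1, ZMod.unitsMap_val, ZMod.cast_eq_val, ZMod.val_natCast]

/-- a family of bounded order satisfying the Tate relation for all `t` prime to `s`
satisfies it for all `t` prime to its orders -/
lemma sum_saw_of_coprime {κ : Type*} (J : Finset κ) (b : κ → UnitAddCircle) {s : ℕ} (hs : 0 < s)
    (hb : ∀ i ∈ J, s • b i = 0)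
    (h : ∀ t0 : ℕ, s.Coprime t0 → ∑ i ∈ J, saw (t0 • b i) = 0) {t : ℕ}
    (ht : ∀ i ∈ J, Nat.Coprime t (addOrderOf (b i))) : ∑ i ∈ J, saw (t • b i) = 0 := by
  classical
  set L : ℕ := J.lcm (fun i => addOrderOf (b i)) with hL
  have hLs : L ∣ s := Finset.lcm_dvd fun i hi => addOrderOf_dvd_of_nsmul_eq_zero (hb i hi)
  have htL : Nat.Coprime t L := by
    have h1 : Nat.Coprime t (∏ i ∈ J, addOrderOf (b i)) := Nat.Coprime.prod_right ht
    refine Nat.Coprime.coprime_dvd_right (Finset.lcm_dvd fun i hi => ?_) h1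
    exact Finset.dvd_prod_of_mem (fun i => addOrderOf (b i)) hi
  obtain ⟨t0, h1, h2⟩ := exists_coprime_lift hs hLs htL
  rw [← h t0 h1]
  apply Finset.sum_congr rfl
  intro i hi
  congr 1
  have h3 : addOrderOf (b i) ∣ L := Finset.dvd_lcm hi
  rw [← mod_addOrderOf_nsmul (b i) t, ← mod_addOrderOf_nsmul (b i) t0,
    ← Nat.mod_mod_of_dvd t h3, ← Nat.mod_mod_of_dvd t0 h3, h2]

lemma IsTate.of_saw {κ : Type*} [Fintype κ] {b : κ → UnitAddCircle} (h0 : ∀ i, b i ≠ 0)
    (hf : ∀ i, IsOfFinAddOrder (b i))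
    (h : ∀ t : ℕ, (∀ i, Nat.Coprime t (addOrderOf (b i))) → ∑ i, saw (t • b i) = 0) :
    IsTate b where
  ne_zero := h0
  fin := hf
  sum_eq := by
    intro t ht
    have := h t ht
    unfold saw at this
    rw [Finset.sum_sub_distrib, Finset.sum_const, Finset.card_univ, nsmul_eq_mul] at this
    linarith

/-- The reduction step for one family. -/
theorem step {N : ℕ} (hN : Even N) {a : Fin N → UnitAddCircle} (ha : IsTate a)
    {J : Finset (Fin N)} {s : ℕ} (hs : 0 < s) (hK1 : ∀ i ∈ J, s • a i = 0)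
    (hK2 : ∀ t0 : ℕ, s.Coprime t0 → ∑ i ∈ J, saw (t0 • a i) = 0)
    (hK3 : ∑ i ∈ Jᶜ, Finsupp.single (a i) 1 ∈ Std') :
    ∃ (N' : ℕ) (b : Fin N' → UnitAddCircle), Even N' ∧ N' ≤ J.card + 1 ∧ N' ≤ N ∧ IsTate b ∧
      (∀ j, s • b j = 0 ∨ 2 • b j = 0) ∧ fs a - fs b ∈ Std := by
  classical
  -- enumeration of J
  set b0 : Fin J.card → UnitAddCircle := fun j => a (J.equivFin.symm j) with hb0
  have hsum : ∀ {β : Type} [AddCommMonoid β] (f : UnitAddCircle → β),
      ∑ j, f (b0 j) = ∑ i ∈ J, f (a i) := by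
    intro β _ f
    rw [← Finset.sum_coe_sort J (fun i => f (a i))]
    exact Equiv.sum_comp J.equivFin.symm (fun i : J => f (a i))
  have hb0ne : ∀ j, b0 j ≠ 0 := fun j => ha.ne_zero _
  have hb0f : ∀ j, IsOfFinAddOrder (b0 j) := fun j => ha.fin _
  have hb0s : ∀ j, s • b0 j = 0 := fun j => hK1 _ (J.equivFin.symm j).2
  have hb0saw : ∀ t : ℕ, (∀ j, Nat.Coprime t (addOrderOf (b0 j))) →
      ∑ j, saw (t • b0 j) = 0 := by
    intro t ht
    apply sum_saw_of_coprime Finset.univ b0 hs (fun j _ => hb0s j) ?_ (fun j _ => ht j)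
    intro t0 ht0
    rw [hsum (fun x => saw (t0 • x))]
    exact hK2 t0 ht0
  have hfs : fs b0 = ∑ i ∈ J, Finsupp.single (a i) 1 := hsum (fun x => Finsupp.single x (1:ℤ))
  have hfsa : fs a = fs b0 + ∑ i ∈ Jᶜ, Finsupp.single (a i) 1 := by
    rw [hfs]
    exact (Finset.sum_add_sum_compl J _).symm
  have hcardJ : J.card ≤ N := by
    have := Finset.card_le_univ J
    simpa using this
  rcases Nat.even_or_odd J.card with hev' | hodd
  · refine ⟨J.card, b0, hev', Nat.le_succ _, hcardJ, IsTate.of_saw hb0ne hb0f hb0saw,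
      fun j => Or.inl (hb0s j), ?_⟩
    apply mem_Std_of_even
    · rw [hfsa]
      simpa using hK3
    · rw [map_sub, deg_fs, deg_fs]
      simp only [Fintype.card_fin]
      exact (Int.even_coe_nat N |>.mpr hN).sub (Int.even_coe_nat _ |>.mpr hev')
  · set b : Fin (J.card + 1) → UnitAddCircle := Fin.cons (pt 2) b0 with hb
    have hlt : J.card + 1 ≤ N := by
      rcases Nat.lt_or_ge J.card N with h | h
      · exact h
      · have : J.card = N := le_antisymm hcardJ h
        rw [this] at hodd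
        exact absurd hN (Nat.not_even_iff_odd.mpr hodd)
    have hpt2 : ∀ t : ℕ, Nat.Coprime t (addOrderOf (pt 2)) → t • pt 2 = pt 2 := by
      intro t ht
      rw [addOrderOf_pt (by norm_num)] at ht
      have h1 : t % 2 = 1 := by
        rcases Nat.mod_two_eq_zero_or_one t with h | h
        · exfalso
          have : 2 ∣ t := Nat.dvd_of_mod_eq_zero h
          have := Nat.dvd_gcd this (dvd_refl 2)
          rw [ht] at this
          omega
        · exact h
      rw [← mod_addOrderOf_nsmul, addOrderOf_pt (by norm_num), h1, one_smul]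
    have hsawpt : saw (pt 2) = 0 := by
      unfold saw pt
      rw [fr_coe_of_mem] <;> norm_num
    refine ⟨J.card + 1, b, hodd.add_one, le_refl _, hlt, ?_, ?_, ?_⟩
    · apply IsTate.of_saw
      · intro j
        refine Fin.cases ?_ ?_ j
        · simp only [hb, Fin.cons_zero]
          exact pt_ne_zero (by norm_num)
        · intro j; simp only [hb, Fin.cons_succ]; exact hb0ne j
      · intro j
        refine Fin.cases ?_ ?_ j
        · simp only [hb, Fin.cons_zero]
          exact isOfFinAddOrder_pt (by norm_num)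
        · intro j; simp only [hb, Fin.cons_succ]; exact hb0f j
      · intro t ht
        rw [Fin.sum_univ_succ]
        simp only [hb, Fin.cons_zero, Fin.cons_succ]
        have h1 := ht 0
        simp only [hb, Fin.cons_zero] at h1
        rw [hpt2 t h1, hsawpt, zero_add]
        apply hb0saw
        intro j
        have := ht j.succ
        simpa only [hb, Fin.cons_succ] using this
    · intro j
      refine Fin.cases ?_ ?_ j
      · simp only [hb, Fin.cons_zero]
        exact Or.inr (nsmul_pt 2 (by norm_num))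
      · intro j
        simp only [hb, Fin.cons_succ]
        exact Or.inl (hb0s j)
    · apply mem_Std_of_even
      · have h1 : fs b = Finsupp.single (pt 2) 1 + fs b0 := by
          unfold fs
          rw [Fin.sum_univ_succ]
          simp only [hb, Fin.cons_zero, Fin.cons_succ]
        rw [hfsa, h1]
        have h2 := Std'.sub_mem hK3 half_mem
        convert h2 using 1
        abel
      · rw [map_sub, deg_fs, deg_fs]
        simp only [Fintype.card_fin]
        exact (Int.even_coe_nat N |>.mpr hN).sub (Int.even_coe_nat _ |>.mpr hodd.add_one)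

/-- **Finite reduction.** -/
theorem finite_reduction (N : ℕ) (hN : Even N) :
    ∃ M : ℕ, 0 < M ∧ ∀ a : Fin N → UnitAddCircle, IsTate a →
      ∃ (N' : ℕ) (b : Fin N' → UnitAddCircle), Even N' ∧ N' ≤ N ∧ IsTate b ∧
        (∀ j, M • b j = 0) ∧ fs a - fs b ∈ Std := by
  classical
  by_contra hcon
  push Not at hcon
  -- a sequence of counterexamples
  have hex : ∀ K : ℕ, ∃ a : Fin N → UnitAddCircle, IsTate a ∧
      ∀ (N' : ℕ) (b : Fin N' → UnitAddCircle), Even N' → N' ≤ N → IsTate b →
        (∀ j, (K + 2).factorial • b j = 0) → fs a - fs b ∉ Std :=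
    fun K => hcon _ (Nat.factorial_pos _)
  choose a hT hbad using hex
  set U : Ultrafilter ℕ := Filter.hyperfilter ℕ with hU
  obtain ⟨J, s, hs, hev, -⟩ := core U a hT
  have hlarge : ∀ᶠ K in (U : Filter ℕ), s ≤ K :=
    (Nat.hyperfilter_le_atTop) (eventually_ge_atTop s)
  obtain ⟨K, ⟨hK1, hK2, hK3⟩, hsK⟩ := (hev.and hlarge).exists
  obtain ⟨c, hc⟩ : s ∣ (K + 2).factorial := Nat.dvd_factorial hs (by omega)
  obtain ⟨c', hc'⟩ : 2 ∣ (K + 2).factorial := Nat.dvd_factorial (by norm_num) (by omega)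
  obtain ⟨N', b, h1, -, h2, h3, h4, h5⟩ := step hN (hT K) hs hK1 hK2 hK3
  refine hbad K N' b h1 h2 h3 ?_ h5
  intro j
  rcases h4 j with h | h
  · rw [hc, mul_comm, mul_smul, h, smul_zero]
  · rw [hc', mul_comm, mul_smul, h, smul_zero]

end Pool.Agent.Lib.MP_938ce2_ag_H7
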